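import Pool.Agent.Erdos456.Mertens

/-!
# Values of `n (n - 1) + 2`: prime factors on average
-/

set_option autoImplicit false

namespace Pool.Agent.J4H60.TR

open Finset

/-- the polynomial -/
def Q (n : ℕ) : ℕ := n * (n - 1) + 2

lemma Q_pos (n : ℕ) : 0 < Q n := by
  unfold Q
  omega

lemma Q_mono {m n : ℕ} (h : m ≤ n) : Q m ≤ Q n := by
  unfold Q
  have : m * (m - 1) ≤ n * (n - 1) := Nat.mul_le_mul h (by omega)
  omega

lemma Q_int (n : ℕ) (hn : 0 < n) : ((Q n : ℕ) : ℤ) = (n : ℤ) ^ 2 - n + 2 := by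
  unfold Q
  obtain ⟨m, rfl⟩ : ∃ m, n = m + 1 := ⟨n - 1, by omega⟩
  push_cast
  simp
  ring

/-- At most two roots modulo a prime power. -/
lemma roots (p j : ℕ) (hp : p.Prime) (x y : ℕ) (hx : 0 < x) (hy : 0 < y)
    (h1 : p ^ j ∣ Q x) (h2 : p ^ j ∣ Q y) :
    ((p ^ j : ℕ) : ℤ) ∣ (x : ℤ) - y ∨ ((p ^ j : ℕ) : ℤ) ∣ (x : ℤ) + y - 1 := by
  have e1 : ((p ^ j : ℕ) : ℤ) ∣ (x : ℤ) ^ 2 - x + 2 := by
    rw [← Q_int x hx]
    exact_mod_cast h1
  have e2 : ((p ^ j : ℕ) : ℤ) ∣ (y : ℤ) ^ 2 - y + 2 := by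
    rw [← Q_int y hy]
    exact_mod_cast h2
  have e3 : ((p ^ j : ℕ) : ℤ) ∣ ((x : ℤ) - y) * (x + y - 1) := by
    have h9 := dvd_sub e1 e2
    rwa [show (x : ℤ) ^ 2 - x + 2 - ((y : ℤ) ^ 2 - y + 2) = ((x : ℤ) - y) * (x + y - 1) by ring]
      at h9
  have hpi : Prime (p : ℤ) := Nat.prime_iff_prime_int.1 hp
  rcases Nat.eq_zero_or_pos j with hj | hj
  · left
    rw [hj]
    simp
  by_cases hA : (p : ℤ) ∣ (x : ℤ) - y
  · by_cases hB : (p : ℤ) ∣ (x : ℤ) + y - 1
    · -- then p = 7 and j = 1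
      have e4 : (p : ℤ) ∣ 2 * (x : ℤ) - 1 := by
        have h9 := dvd_add hA hB
        rwa [show (x : ℤ) - y + ((x : ℤ) + y - 1) = 2 * (x : ℤ) - 1 by ring] at h9
      have e5 : (p : ℤ) ∣ (x : ℤ) ^ 2 - x + 2 := by
        refine dvd_trans ?_ e1
        push_cast
        exact dvd_pow_self _ (by omega)
      have e6 : (p : ℤ) ∣ 7 := by
        have h3 : (p : ℤ) ∣ 4 * ((x : ℤ) ^ 2 - x + 2) - (2 * (x : ℤ) - 1) * (2 * x - 1) :=
          dvd_sub (e5.mul_left 4) (e4.mul_right _)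
        rwa [show 4 * ((x : ℤ) ^ 2 - x + 2) - (2 * (x : ℤ) - 1) * (2 * x - 1) = 7 by ring] at h3
      have e7 : p = 7 := by
        have h3 : p ∣ 7 := by exact_mod_cast e6
        rcases (Nat.dvd_prime (by norm_num)).1 h3 with h4 | h4
        · exact absurd h4 hp.one_lt.ne'
        · exact h4
      have e8 : j = 1 := by
        by_contra hne
        have hj2 : 2 ≤ j := by omega
        have e9 : (49 : ℤ) ∣ (x : ℤ) ^ 2 - x + 2 := by
          refine dvd_trans ?_ e1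
          rw [e7]
          push_cast
          exact pow_dvd_pow (7 : ℤ) hj2
        rw [e7] at e4
        obtain ⟨u, hu⟩ := e4
        obtain ⟨v, hv⟩ := e9
        have h3 : 4 * ((x : ℤ) ^ 2 - x + 2) - (2 * (x : ℤ) - 1) * (2 * x - 1) = 7 := by ring
        rw [hu, hv] at h3
        push_cast at h3
        have h5 : (7 : ℤ) ∣ 1 := ⟨4 * v - u * u, by linarith⟩
        norm_num at h5
      left
      rw [e8, pow_one]
      exact hA
    · left
      have hcop : IsCoprime ((p ^ j : ℕ) : ℤ) ((x : ℤ) + y - 1) := by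
        push_cast
        exact IsCoprime.pow_left ((Prime.coprime_iff_not_dvd hpi).2 hB)
      exact hcop.dvd_of_dvd_mul_right e3
  · right
    have hcop : IsCoprime ((p ^ j : ℕ) : ℤ) ((x : ℤ) - y) := by
      push_cast
      exact IsCoprime.pow_left ((Prime.coprime_iff_not_dvd hpi).2 hA)
    exact hcop.dvd_of_dvd_mul_left e3

lemma card_class (N q : ℕ) (hq : 0 < q) (r : ℤ) :
    ((Finset.Ioc 0 N).filter (fun n : ℕ => (q : ℤ) ∣ r - n)).card ≤ N / q + 1 := by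
  rw [← Finset.card_range (N / q + 1)]
  refine Finset.card_le_card_of_injOn (fun n => n / q) ?_ ?_
  · intro n hn
    simp only [coe_filter, mem_Ioc, Set.mem_ofPred_eq] at hn
    simp only [coe_range, Set.mem_Iio]
    have := Nat.div_le_div_right (c := q) hn.1.2
    omega
  · intro m hm n hn hmn
    simp only [coe_filter, mem_Ioc, Set.mem_ofPred_eq] at hm hn
    have h1 : (q : ℤ) ∣ (m : ℤ) - n := by
      have h9 := dvd_sub hn.2 hm.2
      rwa [show r - (n : ℤ) - (r - m) = (m : ℤ) - n by ring] at h9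
    have h2 : m % q = n % q := by
      have := (Int.emod_emod_of_dvd (m : ℤ) (dvd_refl (q : ℤ)))
      have h3 : (m : ℤ) % q = (n : ℤ) % q := Int.emod_eq_emod_iff_emod_sub_eq_zero.2
        (Int.emod_eq_zero_of_dvd h1)
      exact_mod_cast h3
    simp only at hmn
    rw [← Nat.div_add_mod m q, ← Nat.div_add_mod n q, h2, hmn]

lemma card_roots (N p j : ℕ) (hp : p.Prime) :
    ((Finset.Ioc 0 N).filter (fun n : ℕ => p ^ j ∣ Q n)).card ≤ 2 * (N / p ^ j + 1) := by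
  rcases ((Finset.Ioc 0 N).filter (fun n : ℕ => p ^ j ∣ Q n)).eq_empty_or_nonempty with h | ⟨x, hx⟩
  · rw [h]
    simp
  · simp only [mem_filter, mem_Ioc] at hx
    have hq : 0 < p ^ j := pow_pos hp.pos j
    have h1 : ((Finset.Ioc 0 N).filter (fun n : ℕ => p ^ j ∣ Q n)) ⊆
        ((Finset.Ioc 0 N).filter (fun n : ℕ => ((p ^ j : ℕ) : ℤ) ∣ (x : ℤ) - n)) ∪
        ((Finset.Ioc 0 N).filter (fun n : ℕ => ((p ^ j : ℕ) : ℤ) ∣ (1 - x : ℤ) - n)) := by
      intro y hy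
      simp only [mem_filter, mem_Ioc, mem_union] at hy ⊢
      rcases roots p j hp x y hx.1.1 hy.1.1 hx.2 hy.2 with h2 | h2
      · exact Or.inl ⟨hy.1, h2⟩
      · right
        refine ⟨hy.1, ?_⟩
        have h9 := (dvd_neg (a := ((p ^ j : ℕ) : ℤ))).2 h2
        rwa [show -((x : ℤ) + y - 1) = (1 - x : ℤ) - y by ring] at h9
    have h3 := card_class N (p ^ j) hq (x : ℤ)
    have h4 := card_class N (p ^ j) hq (1 - x : ℤ)
    have h5 := (Finset.card_le_card h1).trans (Finset.card_union_le _ _)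
    omega

lemma fact_sum (N p : ℕ) (hp : p.Prime) :
    ∑ n ∈ Finset.Ioc 0 N, (Q n).factorization p ≤
      ∑ j ∈ Finset.Ico 1 (Nat.log p (Q N) + 1), 2 * (N / p ^ j + 1) := by
  have h1 : ∀ n ∈ Finset.Ioc 0 N, (Q n).factorization p =
      ∑ j ∈ Finset.Ico 1 (Nat.log p (Q N) + 1), if p ^ j ∣ Q n then 1 else 0 := by
    intro n hn
    rw [mem_Ioc] at hn
    rw [Nat.factorization_eq_card_pow_dvd_of_lt (b := Nat.log p (Q N) + 1) hp (Q_pos n),
      Finset.card_filter]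
    exact lt_of_le_of_lt (Q_mono hn.2) (Nat.lt_pow_succ_log_self hp.one_lt _)
  rw [Finset.sum_congr rfl h1, Finset.sum_comm]
  refine Finset.sum_le_sum fun j _ => ?_
  rw [← Finset.card_filter]
  exact card_roots N p j hp

lemma geom (N p J : ℕ) (hp : 2 ≤ p) :
    (∑ j ∈ Finset.Ico 1 (J + 1), ((N / p ^ j : ℕ) : ℝ)) ≤ N / (p - 1) := by
  have hp1 : (1 : ℝ) < p := by exact_mod_cast (by omega : 1 < p)
  have h1 : ∀ J : ℕ, (∑ j ∈ Finset.Ico 1 (J + 1), ((N / p ^ j : ℕ) : ℝ)) ≤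
      N / (p - 1) * (1 - 1 / (p : ℝ) ^ J) := by
    intro J
    induction J with
    | zero => simp
    | succ J ih =>
      rw [Finset.sum_Ico_succ_top (by omega)]
      have h2 : ((N / p ^ (J + 1) : ℕ) : ℝ) ≤ N / (p : ℝ) ^ (J + 1) := by
        have := Nat.cast_div_le (α := ℝ) (m := N) (n := p ^ (J + 1))
        push_cast at this
        exact this
      refine (add_le_add ih h2).trans (le_of_eq ?_)
      have h3 : (p : ℝ) - 1 ≠ 0 := by linarith
      have h4 : (p : ℝ) ≠ 0 := by linarith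
      field_simp
      ring
  refine (h1 J).trans ?_
  have h2 : (0 : ℝ) ≤ N / (p - 1) := div_nonneg (Nat.cast_nonneg _) (by linarith)
  have h3 : (0 : ℝ) ≤ 1 / (p : ℝ) ^ J := by positivity
  nlinarith

lemma fact_log (N p : ℕ) (hp : p.Prime) :
    ((∑ n ∈ Finset.Ioc 0 N, (Q n).factorization p : ℕ) : ℝ) * Real.log p ≤
      2 * N * (Real.log p / p + Real.log p / (p * (p - 1))) + 2 * Real.log (Q N) := by
  have hp1 : (1 : ℝ) < p := by exact_mod_cast hp.one_lt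
  have hlp : 0 ≤ Real.log p := Real.log_nonneg hp1.le
  have h1 : ((∑ n ∈ Finset.Ioc 0 N, (Q n).factorization p : ℕ) : ℝ) ≤
      2 * (N / (p - 1)) + 2 * (Nat.log p (Q N) : ℝ) := by
    have h2 := fact_sum N p hp
    have h3 : ((∑ n ∈ Finset.Ioc 0 N, (Q n).factorization p : ℕ) : ℝ) ≤
        ((∑ j ∈ Finset.Ico 1 (Nat.log p (Q N) + 1), 2 * (N / p ^ j + 1) : ℕ) : ℝ) := by
      exact_mod_cast h2
    refine h3.trans ?_
    push_cast
    have h4 : ∑ j ∈ Finset.Ico 1 (Nat.log p (Q N) + 1), (2 : ℝ) * (((N / p ^ j : ℕ) : ℝ) + 1) =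
        2 * (∑ j ∈ Finset.Ico 1 (Nat.log p (Q N) + 1), ((N / p ^ j : ℕ) : ℝ)) +
          2 * (Nat.log p (Q N) : ℝ) := by
      rw [← Finset.mul_sum, Finset.sum_add_distrib, mul_add]
      simp
    have h5 := geom N p (Nat.log p (Q N)) hp.two_le
    calc _ = 2 * (∑ j ∈ Finset.Ico 1 (Nat.log p (Q N) + 1), ((N / p ^ j : ℕ) : ℝ)) +
          2 * (Nat.log p (Q N) : ℝ) := by
            rw [← h4]
      _ ≤ _ := by linarith
  have h6 : (Nat.log p (Q N) : ℝ) * Real.log p ≤ Real.log (Q N) := by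
    rw [← Real.log_pow]
    refine Real.log_le_log (by positivity) ?_
    exact_mod_cast Nat.pow_log_le_self p (Q_pos N).ne'
  have h7 := mul_le_mul_of_nonneg_right h1 hlp
  have h8 : Real.log p / p + Real.log p / (p * (p - 1)) = Real.log p / (p - 1) := by
    have h3 : (p : ℝ) - 1 ≠ 0 := by linarith
    have h4 : (p : ℝ) ≠ 0 := by linarith
    field_simp
    ring
  rw [h8]
  have h9 : (2 * (N / (p - 1)) + 2 * (Nat.log p (Q N) : ℝ)) * Real.log p =
      2 * N * (Real.log p / (p - 1)) + 2 * ((Nat.log p (Q N) : ℝ) * Real.log p) := by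
    ring
  rw [h9] at h7
  linarith

/-- all prime factors of `Q n` are at most `√N + 1` -/
def Smooth (N n : ℕ) : Prop := ∀ p : ℕ, p.Prime → p ∣ Q n → p ≤ Nat.sqrt N + 1

end Pool.Agent.J4H60.TR
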