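import Pool.Agent.J4H60.TR.Dens3
import Pool.Agent.J4H60.TR.Dens2

/-!
# Mertens' theorem for the quadratic character modulo 7
-/

set_option autoImplicit false

namespace Pool.Agent.J4H60.TR

open Finset ArithmeticFunction

/-- the Legendre symbol modulo 7 -/
def c7 (n : ℕ) : ℤ :=
  if n % 7 = 0 then 0 else if n % 7 = 1 ∨ n % 7 = 2 ∨ n % 7 = 4 then 1 else -1

lemma c7_mul (m n : ℕ) : c7 (m * n) = c7 m * c7 n := by
  unfold c7
  rw [Nat.mul_mod]
  have h1 : m % 7 < 7 := Nat.mod_lt _ (by norm_num)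
  have h2 : n % 7 < 7 := Nat.mod_lt _ (by norm_num)
  generalize m % 7 = a at *
  generalize n % 7 = b at *
  interval_cases a <;> interval_cases b <;> rfl

lemma c7_abs (n : ℕ) : |c7 n| ≤ 1 := by
  unfold c7
  split_ifs <;> simp

/-- partial sums -/
def t7 (n : ℕ) : ℤ :=
  if n % 7 = 0 then 0 else if n % 7 = 1 then 1 else if n % 7 = 2 then 2 else
    if n % 7 = 3 then 1 else if n % 7 = 4 then 2 else if n % 7 = 5 then 1 else 0

lemma t7_succ (n : ℕ) : t7 (n + 1) = t7 n + c7 (n + 1) := by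
  unfold t7 c7
  rw [Nat.add_mod]
  have h1 : n % 7 < 7 := Nat.mod_lt _ (by norm_num)
  generalize n % 7 = a at *
  interval_cases a <;> rfl

lemma t7_nonneg (n : ℕ) : 0 ≤ t7 n := by
  unfold t7
  split_ifs <;> norm_num

lemma t7_le (n : ℕ) : t7 n ≤ 2 := by
  unfold t7
  split_ifs <;> norm_num

lemma c7_sum (u v : ℕ) (huv : u ≤ v) : ∑ m ∈ Ioc u v, c7 m = t7 v - t7 u := by
  induction v, huv using Nat.le_induction with
  | base => simp
  | succ v h ih =>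
    rw [Finset.sum_Ioc_succ_top (by omega), ih, t7_succ]
    ring

lemma c7_abel (g : ℕ → ℝ) (u v : ℕ) (huv : u ≤ v) (hg : ∀ m, u < m → g (m + 1) ≤ g m)
    (hg0 : ∀ m, u < m → 0 ≤ g m) :
    |∑ m ∈ Ioc u v, (c7 m : ℝ) * g m| ≤ 2 * g (u + 1) := by
  rw [abs_le]
  constructor
  · refine abel_ge (fun m => (c7 m : ℝ)) g 2 (by norm_num) u hg hg0 ?_ v huv
    intro w hw
    have h1 := c7_sum u w hw
    have h2 := t7_nonneg w
    have h3 := t7_le u
    have h4 : (-2 : ℤ) ≤ ∑ m ∈ Ioc u w, c7 m := by omega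
    exact_mod_cast h4
  · have h := abel_ge (fun m => -(c7 m : ℝ)) g 2 (by norm_num) u hg hg0 (by
      intro w hw
      have h1 := c7_sum u w hw
      have h2 := t7_nonneg u
      have h3 := t7_le w
      have h4 : (-2 : ℤ) ≤ ∑ m ∈ Ioc u w, -c7 m := by
        rw [Finset.sum_neg_distrib]
        omega
      exact_mod_cast h4) v huv
    simp only [neg_mul, Finset.sum_neg_distrib] at h
    linarith

/-- `∑_{m ≤ M} χ(m) / m` -/
noncomputable def h7 (M : ℕ) : ℝ := ∑ m ∈ Ioc 0 M, (c7 m : ℝ) * (1 / (m : ℝ))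

lemma h7_sub (u v : ℕ) (huv : u ≤ v) : |h7 v - h7 u| ≤ 2 * (1 / ((u + 1 : ℕ) : ℝ)) := by
  have h1 : h7 v - h7 u = ∑ m ∈ Ioc u v, (c7 m : ℝ) * (1 / (m : ℝ)) := by
    unfold h7
    rw [← Finset.sum_Ioc_consecutive _ (Nat.zero_le u) huv]
    ring
  rw [h1]
  refine c7_abel (fun m => 1 / (m : ℝ)) u v huv ?_ ?_
  · intro m hm
    have : (0 : ℝ) < m := by exact_mod_cast (by omega : 0 < m)
    refine one_div_le_one_div_of_le this ?_
    push_cast
    linarith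
  · intro m _
    positivity

lemma h7_ge (N : ℕ) (hN : 2 ≤ N) : 1 / 2 ≤ h7 N := by
  have h1 := abs_le.1 (h7_sub 2 N hN)
  have h2 : h7 2 = 3 / 2 := by
    unfold h7
    rw [Finset.sum_Ioc_succ_top (by omega), Finset.sum_Ioc_succ_top (by omega)]
    norm_num [c7]
  rw [h2] at h1
  have h3 := h1.1
  norm_num at h3
  linarith

lemma hyper (N : ℕ) (F : ℕ → ℕ → ℝ) :
    ∑ n ∈ Ioc 0 N, ∑ d ∈ n.divisors, F d n = ∑ d ∈ Ioc 0 N, ∑ m ∈ Ioc 0 (N / d), F d (d * m) := by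
  rw [Finset.sum_comm' (t' := Ioc 0 N) (s' := fun d => (Ioc 0 N).filter (fun n => d ∣ n))]
  · refine Finset.sum_congr rfl fun d hd => ?_
    rw [mem_Ioc] at hd
    refine Finset.sum_nbij' (fun n => n / d) (fun m => d * m) ?_ ?_ ?_ ?_ ?_
    · intro n hn
      simp only [mem_filter, mem_Ioc] at hn ⊢
      exact ⟨Nat.div_pos (Nat.le_of_dvd hn.1.1 hn.2) hd.1, Nat.div_le_div_right hn.1.2⟩
    · intro m hm
      simp only [mem_filter, mem_Ioc] at hm ⊢
      refine ⟨⟨Nat.mul_pos hd.1 hm.1, ?_⟩, Dvd.intro _ rfl⟩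
      calc d * m ≤ d * (N / d) := Nat.mul_le_mul_left _ hm.2
        _ ≤ N := Nat.mul_div_le N d
    · intro n hn
      simp only [mem_filter, mem_Ioc] at hn
      exact Nat.mul_div_cancel' hn.2
    · intro m hm
      exact Nat.mul_div_cancel_left m hd.1
    · intro n hn
      simp only [mem_filter, mem_Ioc] at hn
      rw [Nat.mul_div_cancel' hn.2]
  · intro n d
    simp only [mem_Ioc, Nat.mem_divisors, mem_filter]
    constructor
    · rintro ⟨⟨h1, h2⟩, h3, h4⟩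
      exact ⟨⟨⟨h1, h2⟩, h3⟩, Nat.pos_of_dvd_of_pos h3 h1, (Nat.le_of_dvd h1 h3).trans h2⟩
    · rintro ⟨⟨⟨h1, h2⟩, h3⟩, _, _⟩
      exact ⟨⟨h1, h2⟩, h3, by omega⟩

lemma psi_le' (N : ℕ) : ∑ d ∈ Ioc 0 N, Λ d ≤ (Real.log 4 + 4) * N := by
  have h := Chebyshev.psi_le_const_mul_self (x := (N : ℝ)) (Nat.cast_nonneg N)
  rw [Chebyshev.psi, Nat.floor_natCast] at h
  exact h

lemma lambda_div_le (N : ℕ) (hN : 1 ≤ N) :
    ∑ d ∈ Ioc 0 N, Λ d / d ≤ Real.log N + (Real.log 4 + 4) := by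
  have hN0 : (0 : ℝ) < N := by exact_mod_cast hN
  have h1 := hyper N (fun d _ => Λ d)
  simp only [vonMangoldt_sum, Finset.sum_const, Nat.card_Ioc, Nat.sub_zero, nsmul_eq_mul] at h1
  have h2 : ∑ n ∈ Ioc 0 N, Real.log (n : ℝ) ≤ N * Real.log N := by
    have h3 : ∀ n ∈ Ioc 0 N, Real.log (n : ℝ) ≤ Real.log N := by
      intro n hn
      rw [mem_Ioc] at hn
      exact Real.log_le_log (by exact_mod_cast hn.1) (by exact_mod_cast hn.2)
    refine (Finset.sum_le_sum h3).trans ?_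
    simp
  have h3 : N * ∑ d ∈ Ioc 0 N, Λ d / d ≤ ∑ d ∈ Ioc 0 N, (((N / d : ℕ) : ℝ) * Λ d + Λ d) := by
    rw [Finset.mul_sum]
    refine Finset.sum_le_sum fun d hd => ?_
    rw [mem_Ioc] at hd
    have hd0 : (0 : ℝ) < d := by exact_mod_cast hd.1
    have h4 := Nat.lt_div_mul_add (a := N) hd.1
    have h5 : (N : ℝ) < (N / d : ℕ) * d + d := by exact_mod_cast h4
    have h6 : (N : ℝ) / d ≤ (N / d : ℕ) + 1 := by
      rw [div_le_iff₀ hd0]
      linarith
    have h7 := mul_le_mul_of_nonneg_right h6 (vonMangoldt_nonneg (n := d))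
    calc (N : ℝ) * (Λ d / d) = N / d * Λ d := by ring
      _ ≤ ((N / d : ℕ) + 1) * Λ d := h7
      _ = _ := by ring
  rw [Finset.sum_add_distrib, ← h1] at h3
  have h4 := psi_le' N
  have h5 : N * ∑ d ∈ Ioc 0 N, Λ d / d ≤ N * (Real.log N + (Real.log 4 + 4)) := by linarith
  exact le_of_mul_le_mul_left h5 hN0

lemma chi_log (N : ℕ) (hN : 2 ≤ N) :
    |∑ n ∈ Ioc 0 N, (c7 n : ℝ) * (Real.log n / n)| ≤ 3 := by
  rw [← Finset.sum_Ioc_consecutive _ (Nat.zero_le 2) hN]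
  have h1 : ∑ n ∈ Ioc 0 2, (c7 n : ℝ) * (Real.log n / n) = Real.log 2 / 2 := by
    rw [Finset.sum_Ioc_succ_top (by omega), Finset.sum_Ioc_succ_top (by omega)]
    norm_num [c7]
  have h2 := c7_abel (fun m => Real.log m / m) 2 N hN (by
    intro m hm
    have h3 : (3 : ℝ) ≤ m := by exact_mod_cast hm
    have h4 : Real.exp 1 ≤ m := by
      have := Real.exp_one_lt_d9
      linarith
    refine Real.log_div_self_antitoneOn (Set.mem_Ici.2 h4) (Set.mem_Ici.2 ?_) ?_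
    · push_cast
      linarith
    · push_cast
      linarith) (by
    intro m _
    have := Real.log_natCast_nonneg m
    positivity)
  have h3 : Real.log ((2 + 1 : ℕ) : ℝ) / ((2 + 1 : ℕ) : ℝ) ≤ 1 := by
    rw [div_le_one (by positivity)]
    have := Real.log_le_sub_one_of_pos (x := ((2 + 1 : ℕ) : ℝ)) (by positivity)
    linarith
  have h4 : |Real.log 2 / 2| ≤ 1 := by
    have h5 : 0 < Real.log 2 := Real.log_pos (by norm_num)
    have := Real.log_two_lt_d9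
    rw [abs_of_pos (by positivity)]
    linarith
  rw [h1]
  refine (abs_add_le _ _).trans ?_
  linarith

lemma chi_lambda (N : ℕ) (hN : 2 ≤ N) :
    |∑ d ∈ Ioc 0 N, (c7 d : ℝ) * (Λ d / d)| ≤ 2 * (3 + 2 * (Real.log 4 + 4)) := by
  have hN0 : (0 : ℝ) < N := by exact_mod_cast (by omega : 0 < N)
  have h1 := hyper N (fun d n => (c7 n : ℝ) * (1 / n) * Λ d)
  have h2 : ∑ n ∈ Ioc 0 N, ∑ d ∈ n.divisors, (c7 n : ℝ) * (1 / n) * Λ d =
      ∑ n ∈ Ioc 0 N, (c7 n : ℝ) * (Real.log n / n) := by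
    refine Finset.sum_congr rfl fun n _ => ?_
    rw [← Finset.mul_sum, vonMangoldt_sum]
    ring
  have h3 : ∑ d ∈ Ioc 0 N, ∑ m ∈ Ioc 0 (N / d), (c7 (d * m) : ℝ) * (1 / ((d * m : ℕ) : ℝ)) * Λ d =
      ∑ d ∈ Ioc 0 N, (c7 d : ℝ) * (Λ d / d) * h7 (N / d) := by
    refine Finset.sum_congr rfl fun d _ => ?_
    unfold h7
    rw [Finset.mul_sum]
    refine Finset.sum_congr rfl fun m _ => ?_
    rw [c7_mul]
    push_cast
    ring
  rw [h2, h3] at h1
  have h4 : (∑ d ∈ Ioc 0 N, (c7 d : ℝ) * (Λ d / d)) * h7 N =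
      ∑ n ∈ Ioc 0 N, (c7 n : ℝ) * (Real.log n / n) +
        ∑ d ∈ Ioc 0 N, (c7 d : ℝ) * (Λ d / d) * (h7 N - h7 (N / d)) := by
    rw [h1, ← Finset.sum_add_distrib, Finset.sum_mul]
    refine Finset.sum_congr rfl fun d _ => ?_
    ring
  have h5 : |∑ d ∈ Ioc 0 N, (c7 d : ℝ) * (Λ d / d) * (h7 N - h7 (N / d))| ≤
      2 * (Real.log 4 + 4) := by
    refine (Finset.abs_sum_le_sum_abs _ _).trans ?_
    have h6 : ∀ d ∈ Ioc 0 N, |(c7 d : ℝ) * (Λ d / d) * (h7 N - h7 (N / d))| ≤ 2 / N * Λ d := by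
      intro d hd
      rw [mem_Ioc] at hd
      have hd0 : (0 : ℝ) < d := by exact_mod_cast hd.1
      have h8 := h7_sub (N / d) N (Nat.div_le_self N d)
      have h9 : |(c7 d : ℝ)| ≤ 1 := by exact_mod_cast c7_abs d
      have h10 : 0 ≤ Λ d := vonMangoldt_nonneg
      have h4 := Nat.lt_div_mul_add (a := N) hd.1
      have h5 : (N : ℝ) < (N / d : ℕ) * d + d := by exact_mod_cast h4
      have h11 : 1 / ((N / d + 1 : ℕ) : ℝ) ≤ d / N := by
        rw [div_le_div_iff₀ (by positivity) hN0]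
        push_cast
        linarith
      have h12 : |h7 N - h7 (N / d)| ≤ 2 * (d / N) := by linarith
      rw [abs_mul, abs_mul, abs_of_nonneg (by positivity : 0 ≤ Λ d / d)]
      calc |(c7 d : ℝ)| * (Λ d / d) * |h7 N - h7 (N / d)| ≤ 1 * (Λ d / d) * (2 * (d / N)) := by
            gcongr
        _ = 2 / N * Λ d := by
            field_simp
    refine (Finset.sum_le_sum h6).trans ?_
    rw [← Finset.mul_sum]
    have h7 := psi_le' N
    calc 2 / N * ∑ d ∈ Ioc 0 N, Λ d ≤ 2 / N * ((Real.log 4 + 4) * N) := by gcongr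
      _ = 2 * (Real.log 4 + 4) := by field_simp
  have h6 := chi_log N hN
  have h7' := h7_ge N hN
  have h8 : |∑ d ∈ Ioc 0 N, (c7 d : ℝ) * (Λ d / d)| * h7 N ≤ 3 + 2 * (Real.log 4 + 4) := by
    have h9 : |(∑ d ∈ Ioc 0 N, (c7 d : ℝ) * (Λ d / d)) * h7 N| =
        |∑ d ∈ Ioc 0 N, (c7 d : ℝ) * (Λ d / d)| * h7 N := by
      rw [abs_mul, abs_of_pos (by linarith : 0 < h7 N)]
    rw [← h9, h4]
    refine (abs_add_le _ _).trans ?_
    linarith
  have h10 := mul_le_mul_of_nonneg_left h7' (abs_nonneg (∑ d ∈ Ioc 0 N, (c7 d : ℝ) * (Λ d / d)))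
  linarith

theorem chi_mertens : ∃ C : ℝ, 0 ≤ C ∧ ∀ N : ℕ, 2 ≤ N →
    |∑ p ∈ (Icc 1 N).filter Nat.Prime, (c7 p : ℝ) * (Real.log p / p)| ≤ C := by
  obtain ⟨C, hC⟩ := Pool.Agent.Erdos456.Mert.mertens_log
  have hlog4 : 0 < Real.log 4 := Real.log_pos (by norm_num)
  have hC0 : 0 ≤ C := (abs_nonneg _).trans (hC 1 le_rfl)
  refine ⟨2 * (3 + 2 * (Real.log 4 + 4)) + (C + (Real.log 4 + 4)), by positivity, fun N hN => ?_⟩
  have hI : Icc 1 N = Ioc 0 N := by
    ext n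
    simp only [mem_Icc, mem_Ioc]
    omega
  have h1 := chi_lambda N hN
  have h2 := lambda_div_le N (by omega)
  have h3 := (abs_le.1 (hC N (by omega))).1
  rw [hI] at h3 ⊢
  have e1 : ∑ d ∈ Ioc 0 N, (c7 d : ℝ) * (Λ d / d) =
      ∑ p ∈ (Ioc 0 N).filter Nat.Prime, (c7 p : ℝ) * (Real.log p / p) +
        ∑ d ∈ (Ioc 0 N).filter (fun d => ¬ d.Prime), (c7 d : ℝ) * (Λ d / d) := by
    rw [← Finset.sum_filter_add_sum_filter_not (Ioc 0 N) Nat.Prime]
    congr 1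
    refine Finset.sum_congr rfl fun p hp => ?_
    rw [vonMangoldt_apply_prime (mem_filter.1 hp).2]
  have e2 : ∑ d ∈ Ioc 0 N, Λ d / d =
      ∑ p ∈ (Ioc 0 N).filter Nat.Prime, Real.log p / p +
        ∑ d ∈ (Ioc 0 N).filter (fun d => ¬ d.Prime), Λ d / d := by
    rw [← Finset.sum_filter_add_sum_filter_not (Ioc 0 N) Nat.Prime]
    congr 1
    refine Finset.sum_congr rfl fun p hp => ?_
    rw [vonMangoldt_apply_prime (mem_filter.1 hp).2]
  have e3 : |∑ d ∈ (Ioc 0 N).filter (fun d => ¬ d.Prime), (c7 d : ℝ) * (Λ d / d)| ≤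
      ∑ d ∈ (Ioc 0 N).filter (fun d => ¬ d.Prime), Λ d / d := by
    refine (Finset.abs_sum_le_sum_abs _ _).trans (Finset.sum_le_sum fun d _ => ?_)
    have h9 : |(c7 d : ℝ)| ≤ 1 := by exact_mod_cast c7_abs d
    have h10 : 0 ≤ Λ d / d := div_nonneg vonMangoldt_nonneg (Nat.cast_nonneg d)
    rw [abs_mul, abs_of_nonneg h10]
    nlinarith
  have e4 : ∑ p ∈ (Ioc 0 N).filter Nat.Prime, (c7 p : ℝ) * (Real.log p / p) =
      ∑ d ∈ Ioc 0 N, (c7 d : ℝ) * (Λ d / d) -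
        ∑ d ∈ (Ioc 0 N).filter (fun d => ¬ d.Prime), (c7 d : ℝ) * (Λ d / d) := by
    linarith
  rw [e4]
  refine (abs_sub _ _).trans ?_
  linarith

lemma nsq3 : ¬ IsSquare ((3 : ℕ) : ZMod 7) := by decide
lemma nsq5 : ¬ IsSquare ((5 : ℕ) : ZMod 7) := by decide
lemma nsq6 : ¬ IsSquare ((6 : ℕ) : ZMod 7) := by decide

/-- A prime factor of `n (n - 1) + 2` other than 2, 7 is a square modulo 7. -/
lemma c7_of_dvd (p n : ℕ) (hp : p.Prime) (h2 : p ≠ 2) (h7 : p ≠ 7) (hn : 0 < n) (h : p ∣ Q n) :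
    c7 p = 1 := by
  have : Fact p.Prime := ⟨hp⟩
  have : Fact (Nat.Prime 7) := ⟨by norm_num⟩
  have hodd : p % 2 = 1 := by
    rcases hp.eq_two_or_odd with h3 | h3
    · exact absurd h3 h2
    · exact h3
  -- `-7` is a square
  have h3 : ((n : ZMod p) ^ 2 - n + 2) = 0 := by
    have h4 : ((p : ℕ) : ℤ) ∣ (n : ℤ) ^ 2 - n + 2 := by
      rw [← Q_int n hn]
      exact_mod_cast h
    have h5 := (ZMod.intCast_zmod_eq_zero_iff_dvd ((n : ℤ) ^ 2 - n + 2) p).2 h4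
    push_cast at h5
    exact h5
  have hsq : IsSquare (-7 : ZMod p) := by
    refine ⟨2 * (n : ZMod p) - 1, ?_⟩
    linear_combination (-4 : ZMod p) * h3
  have h70 : (7 : ZMod p) ≠ 0 := by
    intro h4
    have h5 : ((7 : ℕ) : ZMod p) = 0 := by exact_mod_cast h4
    rw [ZMod.natCast_eq_zero_iff] at h5
    rcases (Nat.dvd_prime (by norm_num : Nat.Prime 7)).1 h5 with h6 | h6
    · exact absurd h6 hp.one_lt.ne'
    · exact h7 h6
  have hp7 : IsSquare (p : ZMod 7) := by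
    rcases (by omega : p % 4 = 1 ∨ p % 4 = 3) with h4 | h4
    · have h5 : IsSquare (-1 : ZMod p) := ZMod.exists_sq_eq_neg_one_iff.2 (by omega)
      have h6 : IsSquare ((7 : ℕ) : ZMod p) := by
        have := h5.mul hsq
        have e : (-1 : ZMod p) * -7 = ((7 : ℕ) : ZMod p) := by push_cast; ring
        rwa [e] at this
      exact (ZMod.exists_sq_eq_prime_iff_of_mod_four_eq_one h4 (by norm_num)).1 h6
    · by_contra h5
      have h6 : IsSquare ((7 : ℕ) : ZMod p) :=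
        (ZMod.exists_sq_eq_prime_iff_of_mod_four_eq_three h4 (by norm_num) h7).2 h5
      have h8 : IsSquare (-1 : ZMod p) := by
        have := hsq.div h6
        have e : (-7 : ZMod p) / ((7 : ℕ) : ZMod p) = -1 := by
          push_cast
          field_simp
        rwa [e] at this
      exact absurd h4 (ZMod.exists_sq_eq_neg_one_iff.1 h8)
  have hlt : p % 7 < 7 := Nat.mod_lt _ (by norm_num)
  have hcast : (p : ZMod 7) = ((p % 7 : ℕ) : ZMod 7) := by simp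
  have h0 : p % 7 ≠ 0 := by
    intro h4
    rcases (Nat.dvd_prime hp).1 (Nat.dvd_of_mod_eq_zero h4) with h5 | h5
    · norm_num at h5
    · exact h7 h5.symm
  rw [hcast] at hp7
  unfold c7
  generalize p % 7 = a at *
  interval_cases a
  · exact absurd rfl h0
  · rfl
  · rfl
  · exact absurd hp7 nsq3
  · rfl
  · exact absurd hp7 nsq5
  · exact absurd hp7 nsq6

end Pool.Agent.J4H60.TR
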