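import Pool.Agent.Erdos456.Mertens

/-!
# Numbers with a prime factor larger than the square root: preparations
-/

set_option autoImplicit false

namespace Pool.Agent.J4H60.TR

open Finset

lemma seg {C : ℝ} (hC : ∀ N : ℕ, 1 ≤ N →
    |∑ p ∈ (Finset.Icc 1 N).filter Nat.Prime, Real.log p / p - Real.log N| ≤ C)
    (u v : ℕ) (hu : 1 ≤ u) (huv : u ≤ v) :
    Real.log v - Real.log u - 2 * C ≤ ∑ p ∈ (Finset.Ioc u v).filter Nat.Prime, Real.log p / p := by
  have h1 := abs_le.1 (hC u hu)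
  have h2 := abs_le.1 (hC v (hu.trans huv))
  have h3 : ∑ p ∈ (Finset.Icc 1 v).filter Nat.Prime, Real.log p / p =
      ∑ p ∈ (Finset.Icc 1 u).filter Nat.Prime, Real.log p / p +
        ∑ p ∈ (Finset.Ioc u v).filter Nat.Prime, Real.log p / p := by
    rw [← Finset.sum_union]
    · congr 1
      ext p
      simp only [mem_filter, mem_Icc, mem_union, mem_Ioc]
      constructor
      · rintro ⟨⟨h4, h5⟩, h6⟩
        rcases le_or_gt p u with h7 | h7
        · exact Or.inl ⟨⟨h4, h7⟩, h6⟩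
        · exact Or.inr ⟨⟨h7, h5⟩, h6⟩
      · rintro (⟨⟨h4, h5⟩, h6⟩ | ⟨⟨h4, h5⟩, h6⟩)
        · exact ⟨⟨h4, h5.trans huv⟩, h6⟩
        · exact ⟨⟨by omega, h5⟩, h6⟩
    · rw [Finset.disjoint_left]
      intro p hp hq
      simp only [mem_filter, mem_Icc, mem_Ioc] at hp hq
      omega
  linarith [h1.1, h1.2, h2.1, h2.2]

lemma seg_inv {C : ℝ} (hC : ∀ N : ℕ, 1 ≤ N →
    |∑ p ∈ (Finset.Icc 1 N).filter Nat.Prime, Real.log p / p - Real.log N| ≤ C)
    (u v : ℕ) (hu : 1 ≤ u) (huv : u ≤ v) :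
    Real.log v - Real.log u - 2 * C ≤
      (∑ p ∈ (Finset.Ioc u v).filter Nat.Prime, (1 : ℝ) / p) * Real.log v := by
  refine (seg hC u v hu huv).trans ?_
  rw [Finset.sum_mul]
  refine Finset.sum_le_sum fun p hp => ?_
  simp only [mem_filter, mem_Ioc] at hp
  have h1 : (0 : ℝ) < p := by exact_mod_cast hp.2.pos
  have h2 : Real.log p ≤ Real.log v := Real.log_le_log h1 (by exact_mod_cast hp.1.2)
  rw [div_eq_mul_one_div, mul_comm]
  exact mul_le_mul_of_nonneg_left h2 (by positivity)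

/-- `n` has a prime factor with `(p - 1)^2 ≥ n + 2`. -/
def Big (n : ℕ) : Prop := ∃ p : ℕ, p.Prime ∧ p ∣ n ∧ n + 2 ≤ (p - 1) ^ 2

open scoped Classical in
lemma count_big (N X : ℕ) :
    ∑ p ∈ (Finset.Ioc (Nat.sqrt N + 2) X).filter Nat.Prime, N / p ≤
      ((Finset.Ioc 0 N).filter Big).card := by
  have h1 : ∀ p ∈ (Finset.Ioc (Nat.sqrt N + 2) X).filter Nat.Prime,
      N / p = ((Finset.Ioc 0 N).filter (fun n => p ∣ n)).card := by
    intro p _
    rw [Nat.Ioc_filter_dvd_card_eq_div]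
  rw [Finset.sum_congr rfl h1, ← Finset.card_biUnion]
  · refine Finset.card_le_card fun n hn => ?_
    simp only [mem_biUnion, mem_filter, mem_Ioc] at hn ⊢
    obtain ⟨p, ⟨⟨h2, h3⟩, h4⟩, ⟨h5, h6⟩, h7⟩ := hn
    refine ⟨⟨h5, h6⟩, p, h4, h7, ?_⟩
    have h8 : N < (Nat.sqrt N + 1) * (Nat.sqrt N + 1) := Nat.lt_succ_sqrt N
    have h9 : Nat.sqrt N + 2 ≤ p - 1 := by omega
    have h10 : (Nat.sqrt N + 2) ^ 2 ≤ (p - 1) ^ 2 := Nat.pow_le_pow_left h9 2
    nlinarith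
  · intro p hp q hq hpq
    simp only [coe_filter, mem_Ioc, Set.mem_ofPred_eq] at hp hq
    rw [Function.onFun, Finset.disjoint_left]
    intro n hn hm
    simp only [mem_filter, mem_Ioc] at hn hm
    have h2 : p * q ∣ n := (Nat.Coprime.mul_dvd_of_dvd_of_dvd
      ((Nat.coprime_primes hp.2 hq.2).2 hpq) hn.2 hm.2)
    have h3 : p * q ≤ n := Nat.le_of_dvd hn.1.1 h2
    have h8 : N < (Nat.sqrt N + 1) * (Nat.sqrt N + 1) := Nat.lt_succ_sqrt N
    have h9 : (Nat.sqrt N + 1) * (Nat.sqrt N + 1) ≤ p * q :=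
      Nat.mul_le_mul (by omega) (by omega)
    omega

end Pool.Agent.J4H60.TR
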