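import Pool.Agent.J4H60.TR.Dens1

/-!
# Numbers with a prime factor larger than the square root: density at least `log 2`
-/

set_option autoImplicit false

namespace Pool.Agent.J4H60.TR

open Finset

lemma abel_ge (d g : ℕ → ℝ) (D : ℝ) (hD : 0 ≤ D) (u : ℕ) (hg : ∀ m, u < m → g (m + 1) ≤ g m)
    (hg0 : ∀ m, u < m → 0 ≤ g m) (hd : ∀ v, u ≤ v → -D ≤ ∑ m ∈ Ioc u v, d m)
    (v : ℕ) (huv : u ≤ v) :
    -(D * g (u + 1)) ≤ ∑ m ∈ Ioc u v, d m * g m := by
  rcases huv.eq_or_lt with h | h
  · rw [← h]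
    have := hg0 (u + 1) (by omega)
    simp only [Ioc_self, sum_empty]
    have := mul_nonneg hD this
    linarith
  · obtain ⟨k, rfl⟩ : ∃ k, v = u + 1 + k := ⟨v - (u + 1), by omega⟩
    have key : ∀ k : ℕ, -(D * (g (u + 1) - g (u + 1 + k))) ≤
        ∑ m ∈ Ioc u (u + 1 + k), d m * g m -
          (∑ m ∈ Ioc u (u + 1 + k), d m) * g (u + 1 + k) := by
      intro k
      induction k with
      | zero =>
        rw [add_zero, Finset.sum_Ioc_succ_top (by omega), Finset.sum_Ioc_succ_top (by omega)]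
        simp
      | succ k ih =>
        rw [← add_assoc, Finset.sum_Ioc_succ_top (by omega), Finset.sum_Ioc_succ_top (by omega)]
        have h1 := hd (u + 1 + k) (by omega)
        have h2 := hg (u + 1 + k) (by omega)
        have h3 : -(D * (g (u + 1 + k) - g (u + 1 + k + 1))) ≤
            (∑ m ∈ Ioc u (u + 1 + k), d m) * (g (u + 1 + k) - g (u + 1 + k + 1)) := by
          have := mul_le_mul_of_nonneg_right h1 (sub_nonneg.2 h2)
          linarith
        linarith
    have h1 := key k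
    have h2 := hd (u + 1 + k) (by omega)
    have h3 := mul_le_mul_of_nonneg_right h2 (hg0 (u + 1 + k) (by omega))
    linarith

lemma tele (u v : ℕ) (huv : u ≤ v) :
    ∑ m ∈ Ioc u v, (Real.log m - Real.log ((m - 1 : ℕ) : ℝ)) = Real.log v - Real.log u := by
  induction v, huv using Nat.le_induction with
  | base => simp
  | succ v h ih =>
    rw [Finset.sum_Ioc_succ_top (by omega), ih]
    simp

lemma loglog (u v : ℕ) (hu : 1 ≤ u) (huv : u ≤ v) :
    Real.log (Real.log ((v + 1 : ℕ) : ℝ)) - Real.log (Real.log ((u + 1 : ℕ) : ℝ)) ≤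
      ∑ m ∈ Ioc u v, (Real.log m - Real.log ((m - 1 : ℕ) : ℝ)) * (1 / Real.log m) := by
  induction v, huv using Nat.le_induction with
  | base => simp
  | succ v h ih =>
    rw [Finset.sum_Ioc_succ_top (by omega)]
    have hv1 : (1 : ℝ) ≤ v := by exact_mod_cast hu.trans h
    have h1 : 0 < Real.log ((v + 1 : ℕ) : ℝ) := Real.log_pos (by push_cast; linarith)
    have h2 : 0 < Real.log ((v + 1 + 1 : ℕ) : ℝ) := Real.log_pos (by push_cast; linarith)
    have h3 : Real.log (Real.log ((v + 1 + 1 : ℕ) : ℝ)) - Real.log (Real.log ((v + 1 : ℕ) : ℝ)) ≤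
        (Real.log ((v + 1 + 1 : ℕ) : ℝ) - Real.log ((v + 1 : ℕ) : ℝ)) *
          (1 / Real.log ((v + 1 : ℕ) : ℝ)) := by
      rw [← Real.log_div h2.ne' h1.ne']
      refine (Real.log_le_sub_one_of_pos (by positivity)).trans (le_of_eq ?_)
      field_simp
    have h4 : Real.log ((v + 1 + 1 : ℕ) : ℝ) - Real.log ((v + 1 : ℕ) : ℝ) ≤
        Real.log ((v + 1 : ℕ) : ℝ) - Real.log v := by
      have hv0 : (0 : ℝ) < v := by linarith
      have h5 : Real.log ((v + 1 + 1 : ℕ) : ℝ) + Real.log v ≤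
          Real.log ((v + 1 : ℕ) : ℝ) + Real.log ((v + 1 : ℕ) : ℝ) := by
        rw [← Real.log_mul (by positivity) (by positivity),
          ← Real.log_mul (by positivity) (by positivity)]
        refine Real.log_le_log (by positivity) ?_
        push_cast
        nlinarith
      linarith
    have h6 := mul_le_mul_of_nonneg_right h4
      (by positivity : 0 ≤ 1 / Real.log ((v + 1 : ℕ) : ℝ))
    have h7 : (v + 1 - 1 : ℕ) = v := by omega
    rw [h7]
    linarith

/-- Mertens' second theorem, lower bound with the constant 1. -/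
lemma seg_inv2 {C : ℝ} (hC0 : 0 ≤ C) (hC : ∀ N : ℕ, 1 ≤ N →
    |∑ p ∈ (Finset.Icc 1 N).filter Nat.Prime, Real.log p / p - Real.log N| ≤ C)
    (u v : ℕ) (hu : 1 ≤ u) (huv : u ≤ v) :
    Real.log (Real.log ((v + 1 : ℕ) : ℝ)) - Real.log (Real.log ((u + 1 : ℕ) : ℝ)) -
        2 * C * (1 / Real.log ((u + 1 : ℕ) : ℝ)) ≤
      ∑ p ∈ (Finset.Ioc u v).filter Nat.Prime, (1 : ℝ) / p := by
  have h1 := abel_ge (fun m => (if m.Prime then Real.log m / m else 0) -
    (Real.log m - Real.log ((m - 1 : ℕ) : ℝ))) (fun m => 1 / Real.log m) (2 * C) (by positivity) u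
    (by
      intro m hm
      have hm1 : (1 : ℝ) < m := by exact_mod_cast (by omega : 1 < m)
      have h2 : 0 < Real.log m := Real.log_pos hm1
      refine one_div_le_one_div_of_le h2 (Real.log_le_log (by linarith) ?_)
      push_cast
      linarith)
    (by
      intro m hm
      have := Real.log_natCast_nonneg m
      positivity)
    (by
      intro w hw
      rw [Finset.sum_sub_distrib, tele u w hw, ← Finset.sum_filter]
      have := seg hC u w hu hw
      linarith) v huv
  have h2 := loglog u v hu huv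
  have h3 : ∑ m ∈ Ioc u v, ((if m.Prime then Real.log m / m else 0) -
      (Real.log m - Real.log ((m - 1 : ℕ) : ℝ))) * (1 / Real.log m) =
      ∑ p ∈ (Finset.Ioc u v).filter Nat.Prime, (1 : ℝ) / p -
        ∑ m ∈ Ioc u v, (Real.log m - Real.log ((m - 1 : ℕ) : ℝ)) * (1 / Real.log m) := by
    rw [Finset.sum_filter, ← Finset.sum_sub_distrib]
    refine Finset.sum_congr rfl fun m hm => ?_
    rw [mem_Ioc] at hm
    have hm1 : (1 : ℝ) < m := by exact_mod_cast (by omega : 1 < m)
    have h4 : 0 < Real.log m := Real.log_pos hm1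
    rw [sub_mul]
    congr 1
    split_ifs
    · field_simp
    · simp
  rw [h3] at h1
  linarith

open scoped Classical in
/-- **Density.** -/
theorem dens_big2 (ε : ℝ) (hε : 0 < ε) : ∃ N0 : ℕ, ∀ N ≥ N0,
    (Real.log 2 - ε) * N ≤ (((Finset.Ioc 0 N).filter Big).card : ℝ) := by
  obtain ⟨C, hC⟩ := Pool.Agent.Erdos456.Mert.mertens_log
  obtain ⟨K, hK⟩ := exists_nat_gt (2 / ε)
  have hK0 : (0 : ℝ) < K := lt_trans (by positivity) hK
  have hK1 : 1 ≤ K := by
    have : (0 : ℝ) < K := hK0
    exact_mod_cast this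
  have hK1R : (1 : ℝ) ≤ K := by exact_mod_cast hK1
  have hC0 : 0 ≤ C := (abs_nonneg _).trans (hC 1 le_rfl)
  have hlog2 : 0 < Real.log 2 := Real.log_pos (by norm_num)
  have hlog4 : 0 < Real.log 4 := Real.log_pos (by norm_num)
  have hlogK : 0 ≤ Real.log K := Real.log_nonneg hK1R
  set c3 : ℝ := 2 * (Real.log K + 2 * Real.log 4) + 4 * C with hc3
  have hc3pos : 0 < c3 := by positivity
  have hT : Filter.Tendsto (fun N : ℕ => Real.log (N : ℝ)) Filter.atTop Filter.atTop :=
    Real.tendsto_log_atTop.comp tendsto_natCast_atTop_atTop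
  obtain ⟨N1, hN1⟩ := Filter.eventually_atTop.1 (hT.eventually_ge_atTop
    (2 * c3 / ε + 2 * c3))
  set M : ℕ := 4 * K with hM
  refine ⟨max (max N1 2) (M * M), fun N hN => ?_⟩
  have hNN1 : N1 ≤ N := (le_max_left _ _).trans ((le_max_left _ _).trans hN)
  have hN2 : 2 ≤ N := (le_max_right _ _).trans ((le_max_left _ _).trans hN)
  have hNM : M * M ≤ N := (le_max_right _ _).trans hN
  set a := Nat.sqrt N with ha
  have haM : M ≤ a := Nat.le_sqrt.2 hNM
  have haa : a * a ≤ N := Nat.sqrt_le N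
  have haN : N < (a + 1) * (a + 1) := Nat.lt_succ_sqrt N
  set X := N / K with hX
  have haX : a + 2 ≤ X := by
    rw [hX, Nat.le_div_iff_mul_le (by omega)]
    nlinarith
  set L := Real.log N with hL
  have hLbig : 2 * c3 / ε + 2 * c3 ≤ L := hN1 N hNN1
  have hLpos : 0 < L := lt_of_lt_of_le (by positivity) hLbig
  have hNpos : (0 : ℝ) < N := by exact_mod_cast (by omega : 0 < N)
  have haR : (0 : ℝ) < a := by exact_mod_cast (by omega : 0 < a)
  -- logarithms
  have hl1 : Real.log ((a + 2 + 1 : ℕ) : ℝ) ≤ L / 2 + Real.log 4 := by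
    have h1 : (((a + 2 + 1 : ℕ) : ℝ)) ^ 2 ≤ 4 ^ 2 * N := by
      have : (a + 2 + 1) ^ 2 ≤ 4 ^ 2 * N := by nlinarith
      exact_mod_cast this
    have h2 := Real.log_le_log (by positivity) h1
    rw [Real.log_pow, Real.log_mul (by norm_num) hNpos.ne', Real.log_pow] at h2
    push_cast at h2 ⊢
    linarith
  have hl0 : L / 2 ≤ Real.log ((a + 2 + 1 : ℕ) : ℝ) := by
    have h1 : (N : ℝ) ≤ (((a + 2 + 1 : ℕ) : ℝ)) ^ 2 := by
      have : N ≤ (a + 2 + 1) ^ 2 := by nlinarith
      exact_mod_cast this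
    have h2 := Real.log_le_log hNpos h1
    rw [Real.log_pow] at h2
    push_cast at h2 ⊢
    linarith
  have hl5 : L - Real.log K ≤ Real.log ((X + 1 : ℕ) : ℝ) := by
    have h1 : (N : ℝ) ≤ K * ((X + 1 : ℕ) : ℝ) := by
      have e1 : N < K * (X + 1) := by
        rw [hX]
        exact Nat.lt_mul_div_succ N (by omega)
      exact_mod_cast e1.le
    have h2 := Real.log_le_log hNpos h1
    rw [Real.log_mul (by positivity) (by positivity)] at h2
    linarith
  -- sums
  have hs := seg_inv2 hC0 hC (a + 2) X (by omega) haX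
  set S := ∑ p ∈ (Finset.Ioc (a + 2) X).filter Nat.Prime, (1 : ℝ) / p with hS
  have hc3K : Real.log K + 2 * Real.log 4 ≤ c3 / 2 := by
    rw [hc3]
    linarith
  have hLc : 2 * c3 ≤ L := by
    have : 0 < 2 * c3 / ε := by positivity
    linarith
  have hLc' : c3 ≤ ε / 2 * L := by
    have h1 : 2 * c3 / ε ≤ L := by linarith
    rw [div_le_iff₀ hε] at h1
    linarith
  have hw1 : 0 < L - Real.log K := by linarith
  have hw2 : 0 < L / 2 + Real.log 4 := by positivity
  have e1 : Real.log 2 - 2 * ((Real.log K + 2 * Real.log 4) / L) ≤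
      Real.log (Real.log ((X + 1 : ℕ) : ℝ)) - Real.log (Real.log ((a + 2 + 1 : ℕ) : ℝ)) := by
    have f1 : Real.log (L - Real.log K) ≤ Real.log (Real.log ((X + 1 : ℕ) : ℝ)) :=
      Real.log_le_log hw1 hl5
    have f2 : Real.log (Real.log ((a + 2 + 1 : ℕ) : ℝ)) ≤ Real.log (L / 2 + Real.log 4) :=
      Real.log_le_log (by linarith) hl1
    have f3 : Real.log (L - Real.log K) - Real.log (L / 2 + Real.log 4) =
        Real.log 2 - Real.log ((L + 2 * Real.log 4) / (L - Real.log K)) := by
      have g1 : L / 2 + Real.log 4 = (L + 2 * Real.log 4) / 2 := by ring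
      rw [g1, Real.log_div (by positivity) (by norm_num), Real.log_div (by positivity) hw1.ne']
      ring
    have f4 : Real.log ((L + 2 * Real.log 4) / (L - Real.log K)) ≤
        2 * ((Real.log K + 2 * Real.log 4) / L) := by
      refine (Real.log_le_sub_one_of_pos (by positivity)).trans ?_
      rw [div_sub_one hw1.ne', div_le_iff₀ hw1]
      have g2 : L + 2 * Real.log 4 - (L - Real.log K) = Real.log K + 2 * Real.log 4 := by ring
      rw [g2]
      have g3 : L ≤ 2 * (L - Real.log K) := by linarith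
      have g4 : 0 ≤ Real.log K + 2 * Real.log 4 := by positivity
      have g5 : 2 * ((Real.log K + 2 * Real.log 4) / L) * (L - Real.log K) =
          (Real.log K + 2 * Real.log 4) * ((2 * (L - Real.log K)) / L) := by ring
      rw [g5]
      have g6 : 1 ≤ (2 * (L - Real.log K)) / L := by
        rw [le_div_iff₀ hLpos]
        linarith
      nlinarith
    linarith
  have e2 : 2 * C * (1 / Real.log ((a + 2 + 1 : ℕ) : ℝ)) ≤ 4 * C / L := by
    have g1 : 1 / Real.log ((a + 2 + 1 : ℕ) : ℝ) ≤ 1 / (L / 2) :=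
      one_div_le_one_div_of_le (by positivity) hl0
    have g2 := mul_le_mul_of_nonneg_left g1 (by positivity : 0 ≤ 2 * C)
    have g3 : 2 * C * (1 / (L / 2)) = 4 * C / L := by
      field_simp
      ring
    linarith
  have e4 : Real.log 2 - ε / 2 ≤ S := by
    have g1 : 2 * ((Real.log K + 2 * Real.log 4) / L) + 4 * C / L = c3 / L := by
      rw [hc3]
      ring
    have g2 : c3 / L ≤ ε / 2 := by
      rw [div_le_iff₀ hLpos]
      exact hLc'
    linarith
  -- counting
  have h5 := count_big N X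
  have h7 : (1 - 1 / (K : ℝ)) * N * S ≤
      ((∑ p ∈ (Finset.Ioc (a + 2) X).filter Nat.Prime, N / p : ℕ) : ℝ) := by
    rw [hS, Finset.mul_sum]
    push_cast
    refine Finset.sum_le_sum fun p hp => ?_
    simp only [mem_filter, mem_Ioc] at hp
    have hp0 : (0 : ℝ) < p := by exact_mod_cast hp.2.pos
    have g1 : p * K ≤ N := by
      have := hp.1.2
      rw [hX, Nat.le_div_iff_mul_le (by omega)] at this
      exact this
    have g2 : (p : ℝ) * K ≤ N := by exact_mod_cast g1
    have g3 : (N : ℝ) / p - 1 ≤ ((N / p : ℕ) : ℝ) := by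
      have := Nat.lt_div_mul_add (a := N) hp.2.pos
      have g4 : (N : ℝ) < (N / p : ℕ) * p + p := by exact_mod_cast this
      rw [div_sub_one hp0.ne', div_le_iff₀ hp0]
      linarith
    refine le_trans ?_ g3
    have g5 : 1 ≤ (N : ℝ) / (p * K) := by
      rw [le_div_iff₀ (by positivity)]
      linarith
    have g6 : (1 - 1 / (K : ℝ)) * N * (1 / p) = N / p - N / (p * K) := by
      field_simp
    rw [g6]
    linarith
  have h8 : ((∑ p ∈ (Finset.Ioc (a + 2) X).filter Nat.Prime, N / p : ℕ) : ℝ) ≤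
      (((Finset.Ioc 0 N).filter Big).card : ℝ) := by exact_mod_cast h5
  refine le_trans ?_ (h7.trans h8)
  have h9 : 1 / (K : ℝ) ≤ ε / 2 := by
    rw [div_le_iff₀ hK0]
    rw [div_lt_iff₀ hε] at hK
    linarith
  have h10 : 1 / (K : ℝ) ≤ 1 := by
    rw [div_le_one hK0]
    exact_mod_cast hK1
  have hl2 : Real.log 2 ≤ 1 := by
    have := Real.log_two_lt_d9
    linarith
  have h11 : Real.log 2 - ε ≤ (1 - 1 / (K : ℝ)) * S := by
    have h12 : (1 - 1 / (K : ℝ)) * (Real.log 2 - ε / 2) ≤ (1 - 1 / (K : ℝ)) * S :=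
      mul_le_mul_of_nonneg_left e4 (by linarith)
    refine le_trans ?_ h12
    have h13 : 0 < 1 / (K : ℝ) := by positivity
    nlinarith
  calc (Real.log 2 - ε) * N ≤ ((1 - 1 / (K : ℝ)) * S) * N :=
        mul_le_mul_of_nonneg_right h11 hNpos.le
    _ = (1 - 1 / (K : ℝ)) * N * S := by ring

end Pool.Agent.J4H60.TR
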