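import Pool.Agent.J4H60.TR.Chi

/-!
# Values of `n (n - 1) + 2` without large prime factors: density at most `1 / 4`
-/

set_option autoImplicit false

namespace Pool.Agent.J4H60.TR

open Finset

/-- the constant in `fact_log2` -/
noncomputable def w7 (p : ℕ) : ℝ := 1 + (c7 p : ℝ) + if p = 7 then 1 else 0

lemma fact_log2 (N p : ℕ) (hp : p.Prime) :
    ((∑ n ∈ Finset.Ioc 0 N, (Q n).factorization p : ℕ) : ℝ) * Real.log p ≤
      N * (w7 p * (Real.log p / p + Real.log p / (p * (p - 1)))) + 2 * Real.log (Q N) := by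
  have hp1 : (1 : ℝ) < p := by exact_mod_cast hp.one_lt
  have hlp : 0 ≤ Real.log p := Real.log_nonneg hp1.le
  have hQ : 0 ≤ Real.log (Q N) := Real.log_natCast_nonneg _
  have hpos : 0 ≤ Real.log p / p + Real.log p / (p * (p - 1)) := by
    have : 0 < (p : ℝ) - 1 := by linarith
    positivity
  have h1 := fact_log N p hp
  by_cases h7 : p = 7
  · have h2 : w7 p = 2 := by
      rw [h7]
      norm_num [w7, c7]
    rw [h2]
    linarith
  by_cases h2 : p = 2
  · have h3 : w7 p = 2 := by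
      rw [h2]
      norm_num [w7, c7]
    rw [h3]
    linarith
  by_cases h3 : ∃ n ∈ Finset.Ioc 0 N, p ∣ Q n
  · obtain ⟨n, hn, hpn⟩ := h3
    have h4 := c7_of_dvd p n hp h2 h7 (mem_Ioc.1 hn).1 hpn
    have h5 : w7 p = 2 := by
      unfold w7
      rw [h4, if_neg h7]
      norm_num
    rw [h5]
    linarith
  · push Not at h3
    have h4 : ∑ n ∈ Finset.Ioc 0 N, (Q n).factorization p = 0 :=
      Finset.sum_eq_zero fun n hn => Nat.factorization_eq_zero_of_not_dvd (h3 n hn)
    have h5 : 0 ≤ w7 p := by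
      unfold w7
      have h6 : (-1 : ℝ) ≤ c7 p := by
        have := (abs_le.1 (c7_abs p)).1
        exact_mod_cast this
      rw [if_neg h7]
      linarith
    rw [h4]
    have h6 : 0 ≤ N * (w7 p * (Real.log p / p + Real.log p / (p * (p - 1)))) := by positivity
    simp only [Nat.cast_zero, zero_mul]
    linarith

open scoped Classical in
lemma total2 {C C' C2 : ℝ} (hC : ∀ N : ℕ, 1 ≤ N →
    |∑ p ∈ (Finset.Icc 1 N).filter Nat.Prime, Real.log p / p - Real.log N| ≤ C)
    (hC' : ∀ N : ℕ, ∑ p ∈ (Finset.Icc 1 N).filter Nat.Prime, Real.log p / (p * (p - 1)) ≤ C')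
    (hC2 : ∀ N : ℕ, 2 ≤ N →
      |∑ p ∈ (Icc 1 N).filter Nat.Prime, (c7 p : ℝ) * (Real.log p / p)| ≤ C2)
    (N : ℕ) (hN : 1 ≤ N) (B : Finset ℕ) (hB : ∀ n ∈ B, n ∈ Finset.Ioc 0 N ∧ Smooth N n) :
    ∑ n ∈ B, Real.log (Q n) ≤
      N * (Real.log ((Nat.sqrt N + 1 : ℕ) : ℝ) + C + C2 + 3 * C' + 1) +
        2 * ((Nat.sqrt N + 1 : ℕ) : ℝ) * Real.log (Q N) := by
  have hs1 : 1 ≤ Nat.sqrt N := by
    rw [Nat.le_sqrt]
    omega
  set P := (Finset.Icc 1 (Nat.sqrt N + 1)).filter Nat.Prime with hP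
  have h1 : ∀ n ∈ B, Real.log (Q n) = ∑ p ∈ P, ((Q n).factorization p : ℝ) * Real.log p := by
    intro n hn
    rw [Real.log_nat_eq_sum_factorization, Finsupp.sum]
    refine Finset.sum_subset ?_ ?_
    · intro p hp
      rw [Nat.support_factorization, Nat.mem_primeFactors] at hp
      rw [hP, mem_filter, mem_Icc]
      exact ⟨⟨hp.1.pos, (hB n hn).2 p hp.1 hp.2.1⟩, hp.1⟩
    · intro p _ hp
      rw [Finsupp.notMem_support_iff] at hp
      rw [hp]
      simp
  rw [Finset.sum_congr rfl h1, Finset.sum_comm]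
  have h2 : ∀ p ∈ P, ∑ n ∈ B, ((Q n).factorization p : ℝ) * Real.log p ≤
      N * (w7 p * (Real.log p / p + Real.log p / (p * (p - 1)))) + 2 * Real.log (Q N) := by
    intro p hp
    rw [hP, mem_filter] at hp
    refine le_trans ?_ (fact_log2 N p hp.2)
    rw [← Finset.sum_mul]
    have hp1 : (1 : ℝ) < p := by exact_mod_cast hp.2.one_lt
    refine mul_le_mul_of_nonneg_right ?_ (Real.log_nonneg hp1.le)
    push_cast
    exact Finset.sum_le_sum_of_subset_of_nonneg (fun n hn => (hB n hn).1)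
      (fun _ _ _ => Nat.cast_nonneg _)
  refine (Finset.sum_le_sum h2).trans ?_
  rw [Finset.sum_add_distrib, ← Finset.mul_sum, Finset.sum_const, nsmul_eq_mul]
  have h3 := (abs_le.1 (hC (Nat.sqrt N + 1) (by omega))).2
  have h4 := hC' (Nat.sqrt N + 1)
  have h4' := (abs_le.1 (hC2 (Nat.sqrt N + 1) (by omega))).2
  have h5 : (P.card : ℝ) ≤ ((Nat.sqrt N + 1 : ℕ) : ℝ) := by
    have : P.card ≤ Nat.sqrt N + 1 := by
      rw [hP]
      refine (Finset.card_filter_le _ _).trans ?_
      simp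
    exact_mod_cast this
  have h6 : 0 ≤ Real.log (Q N) := Real.log_natCast_nonneg _
  have h7 : (0 : ℝ) ≤ N := Nat.cast_nonneg _
  have h8 : (P.card : ℝ) * (2 * Real.log (Q N)) ≤
      2 * ((Nat.sqrt N + 1 : ℕ) : ℝ) * Real.log (Q N) := by
    have := mul_le_mul_of_nonneg_right h5 (by positivity : 0 ≤ 2 * Real.log (Q N))
    linarith
  rw [← hP] at h3 h4 h4'
  have k1 : ∑ p ∈ P, w7 p * (Real.log p / p + Real.log p / (p * (p - 1))) ≤
      ∑ p ∈ P, (Real.log p / p + (c7 p : ℝ) * (Real.log p / p) +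
        (if p = 7 then (1 : ℝ) else 0) + 3 * (Real.log p / (p * (p - 1)))) := by
    refine Finset.sum_le_sum fun p hp => ?_
    rw [hP, mem_filter] at hp
    have hp1 : (1 : ℝ) < p := by exact_mod_cast hp.2.one_lt
    have hlp : 0 ≤ Real.log p := Real.log_nonneg hp1.le
    have hp2 : 0 < (p : ℝ) - 1 := by linarith
    have k2 : 0 ≤ Real.log p / (p * (p - 1)) := by positivity
    have k3 : (c7 p : ℝ) ≤ 1 := by
      have := (abs_le.1 (c7_abs p)).2
      exact_mod_cast this
    have k4 : Real.log p / p ≤ 1 := by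
      rw [div_le_one (by linarith)]
      have := Real.log_le_sub_one_of_pos (x := (p : ℝ)) (by linarith)
      linarith
    unfold w7
    split_ifs
    · have k5 := mul_le_mul_of_nonneg_right k3 k2
      linarith
    · have k5 := mul_le_mul_of_nonneg_right k3 k2
      linarith
  have k6 : ∑ p ∈ P, (if p = 7 then (1 : ℝ) else 0) ≤ 1 := by
    rw [Finset.sum_ite_eq']
    split_ifs <;> norm_num
  have h9 : (N : ℝ) * ∑ p ∈ P, w7 p * (Real.log p / p + Real.log p / (p * (p - 1))) ≤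
      N * (Real.log ((Nat.sqrt N + 1 : ℕ) : ℝ) + C + C2 + 3 * C' + 1) := by
    refine mul_le_mul_of_nonneg_left (k1.trans ?_) h7
    rw [Finset.sum_add_distrib, Finset.sum_add_distrib, Finset.sum_add_distrib, ← Finset.mul_sum]
    linarith
  linarith

open scoped Classical in
/-- **Density.** -/
theorem dens_smooth2 (ε : ℝ) (hε : 0 < ε) : ∃ N0 : ℕ, ∀ N ≥ N0,
    (((Finset.Ioc 0 N).filter (Smooth N)).card : ℝ) ≤ (1 / 4 + ε) * N := by
  obtain ⟨C, hC⟩ := Pool.Agent.Erdos456.Mert.mertens_log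
  obtain ⟨C', hC'0, hC'⟩ := Pool.Agent.Erdos456.Mert.sum_small_bound
  obtain ⟨C2, hC20, hC2⟩ := chi_mertens
  have hC0 : 0 ≤ C := (abs_nonneg _).trans (hC 1 le_rfl)
  -- small n
  set η : ℝ := min (ε / 4) 1 with hη
  have hη0 : 0 < η := by positivity
  have hη1 : η ≤ 1 := min_le_right _ _
  have hηε : η ≤ ε / 4 := min_le_left _ _
  set c4 : ℝ := Real.log 2 + C + C2 + 3 * C' + 21 with hc4
  set c5 : ℝ := -2 * Real.log η + Real.log 2 with hc5
  have hlog2 : 0 < Real.log 2 := Real.log_pos (by norm_num)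
  have hc5pos : 0 < c5 := by
    have := Real.log_nonpos hη0.le hη1
    rw [hc5]
    linarith
  have hc4pos : 0 < c4 := by positivity
  have hT : Filter.Tendsto (fun N : ℕ => Real.log (N : ℝ)) Filter.atTop Filter.atTop :=
    Real.tendsto_log_atTop.comp tendsto_natCast_atTop_atTop
  obtain ⟨N1, hN1⟩ := Filter.eventually_atTop.1 (hT.eventually_ge_atTop
    ((c4 + (1 / 4 + ε / 4) * c5) / (ε / 2) + c5 + 1))
  obtain ⟨N2, hN2⟩ := exists_nat_gt (1 / (ε / 4))
  refine ⟨max (max N1 1) N2, fun N hN => ?_⟩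
  have hNN1 : N1 ≤ N := (le_max_left _ _).trans ((le_max_left _ _).trans hN)
  have hNpos : 1 ≤ N := (le_max_right _ _).trans ((le_max_left _ _).trans hN)
  have hNN2 : N2 ≤ N := (le_max_right _ _).trans hN
  have hNR : (1 : ℝ) ≤ N := by exact_mod_cast hNpos
  have hNR0 : (0 : ℝ) < N := by linarith
  set L := Real.log N with hL
  have hLbig := hN1 N hNN1
  rw [← hL] at hLbig
  set m : ℕ := ⌊η * N⌋₊ with hm
  have hmle : (m : ℝ) ≤ η * N := Nat.floor_le (by positivity)
  set B := ((Finset.Ioc 0 N).filter (Smooth N)).filter (fun n => m < n) with hB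
  have hcard : (((Finset.Ioc 0 N).filter (Smooth N)).card : ℝ) ≤ m + B.card := by
    have h1 : (Finset.Ioc 0 N).filter (Smooth N) ⊆ Finset.Ioc 0 m ∪ B := by
      intro n hn
      rw [mem_union, hB, mem_filter, mem_Ioc]
      rcases le_or_gt n m with h2 | h2
      · left
        exact ⟨(mem_Ioc.1 (mem_filter.1 hn).1).1, h2⟩
      · exact Or.inr ⟨hn, h2⟩
    have h2 := (Finset.card_le_card h1).trans (Finset.card_union_le _ _)
    rw [Nat.card_Ioc, Nat.sub_zero] at h2
    exact_mod_cast h2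
  have htot := total2 hC hC' hC2 N hNpos B (by
    intro n hn
    rw [hB, mem_filter, mem_filter] at hn
    exact hn.1)
  -- lower bound
  have hlow : (B.card : ℝ) * (2 * L - c5) ≤ ∑ n ∈ B, Real.log (Q n) := by
    rw [← nsmul_eq_mul, ← Finset.sum_const]
    refine Finset.sum_le_sum fun n hn => ?_
    rw [hB, mem_filter, mem_filter, mem_Ioc] at hn
    have h1 : η * N < n := by
      have := Nat.lt_of_floor_lt hn.2
      exact this
    have h2 : (n : ℝ) ^ 2 ≤ 2 * (Q n : ℕ) := by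
      have h3 := Q_int n hn.1.1.1
      have h4 : ((Q n : ℕ) : ℝ) = (n : ℝ) ^ 2 - n + 2 := by exact_mod_cast h3
      rw [h4]
      nlinarith [sq_nonneg ((n : ℝ) - 1)]
    have h5 : (η * N) ^ 2 ≤ 2 * (Q n : ℕ) := by
      refine le_trans ?_ h2
      exact pow_le_pow_left₀ (by positivity) h1.le 2
    have h6 := Real.log_le_log (by positivity) h5
    have hQ : (0 : ℝ) < (Q n : ℕ) := by exact_mod_cast Q_pos n
    rw [Real.log_pow, Real.log_mul hη0.ne' hNR0.ne', Real.log_mul (by norm_num) hQ.ne'] at h6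
    rw [hc5]
    push_cast at h6
    linarith
  -- upper bound
  have hup : ∑ n ∈ B, Real.log (Q n) ≤ N * (L / 2 + c4) := by
    refine htot.trans ?_
    set a := Nat.sqrt N with ha
    have ha1 : 1 ≤ a := by
      rw [ha, Nat.le_sqrt]
      omega
    have haa : a * a ≤ N := Nat.sqrt_le N
    have haR : (1 : ℝ) ≤ a := by exact_mod_cast ha1
    have haaR : (a : ℝ) * a ≤ N := by exact_mod_cast haa
    have h1 : Real.log ((a + 1 : ℕ) : ℝ) ≤ L / 2 + Real.log 2 := by
      have h2 : (((a + 1 : ℕ) : ℝ)) ^ 2 ≤ 2 ^ 2 * N := by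
        push_cast
        nlinarith
      have h3 := Real.log_le_log (by positivity) h2
      rw [Real.log_pow, Real.log_mul (by norm_num) hNR0.ne', Real.log_pow] at h3
      push_cast at h3 ⊢
      linarith
    have h4 : Real.log (Q N : ℕ) ≤ 5 * Real.sqrt N := by
      have h5 : ((Q N : ℕ) : ℝ) ≤ 2 * (N : ℝ) ^ 2 := by
        have h3 := Q_int N hNpos
        have h4 : ((Q N : ℕ) : ℝ) = (N : ℝ) ^ 2 - N + 2 := by exact_mod_cast h3
        rw [h4]
        nlinarith
      have hQ : (0 : ℝ) < (Q N : ℕ) := by exact_mod_cast Q_pos N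
      have h6 := Real.log_le_log hQ h5
      rw [Real.log_mul (by norm_num) (by positivity), Real.log_pow] at h6
      have h7 : Real.log N ≤ 2 * Real.sqrt N := by
        have h8 : Real.log (Real.sqrt N) ≤ Real.sqrt N - 1 :=
          Real.log_le_sub_one_of_pos (Real.sqrt_pos.2 hNR0)
        rw [Real.log_sqrt hNR0.le] at h8
        linarith
      have h9 : Real.log 2 ≤ 1 := by
        have := Real.log_two_lt_d9
        linarith
      have h10 : 1 ≤ Real.sqrt N := Real.one_le_sqrt.2 hNR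
      push_cast at h6
      linarith
    have h11 : ((a + 1 : ℕ) : ℝ) ≤ 2 * Real.sqrt N := by
      have h12 : (a : ℝ) ≤ Real.sqrt N := Real.le_sqrt_of_sq_le (by
        rw [sq]
        exact haaR)
      have h10 : 1 ≤ Real.sqrt N := Real.one_le_sqrt.2 hNR
      push_cast
      linarith
    have h13 : 2 * ((a + 1 : ℕ) : ℝ) * Real.log (Q N : ℕ) ≤ 20 * N := by
      have h14 : Real.sqrt N * Real.sqrt N = N := Real.mul_self_sqrt hNR0.le
      have h15 : 0 ≤ Real.log (Q N : ℕ) := Real.log_natCast_nonneg _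
      have h16 : 0 ≤ Real.sqrt N := Real.sqrt_nonneg _
      calc 2 * ((a + 1 : ℕ) : ℝ) * Real.log (Q N : ℕ) ≤
            2 * (2 * Real.sqrt N) * (5 * Real.sqrt N) :=
            mul_le_mul (mul_le_mul_of_nonneg_left h11 (by norm_num)) h4 h15 (by positivity)
        _ = 20 * (Real.sqrt N * Real.sqrt N) := by ring
        _ = 20 * N := by rw [h14]
    have h17 : (N : ℝ) * (Real.log ((a + 1 : ℕ) : ℝ) + C + C2 + 3 * C' + 1) ≤
        N * (L / 2 + Real.log 2 + C + C2 + 3 * C' + 1) :=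
      mul_le_mul_of_nonneg_left (by linarith) hNR0.le
    rw [hc4]
    linarith
  have hcomb := hlow.trans hup
  -- conclusion
  have hε4 : (0 : ℝ) < ε / 2 := by positivity
  have hL1 : c5 + 1 ≤ L := by
    have : 0 ≤ (c4 + (1 / 4 + ε / 4) * c5) / (ε / 2) := by positivity
    linarith
  have hL2 : c4 + (1 / 4 + ε / 4) * c5 ≤ ε / 2 * L := by
    have h1 : (c4 + (1 / 4 + ε / 4) * c5) / (ε / 2) ≤ L := by linarith
    rw [div_le_iff₀ hε4] at h1
    linarith
  have hBle : (B.card : ℝ) ≤ (1 / 4 + ε / 4) * N := by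
    have h1 : (0 : ℝ) < 2 * L - c5 := by linarith
    have h2 : (N : ℝ) * (L / 2 + c4) ≤ (1 / 4 + ε / 4) * N * (2 * L - c5) := by
      have h3 : L / 2 + c4 ≤ (1 / 4 + ε / 4) * (2 * L - c5) := by
        have : (1 / 4 + ε / 4) * (2 * L - c5) =
            L / 2 + ε / 2 * L - (1 / 4 + ε / 4) * c5 := by ring
        rw [this]
        linarith
      have := mul_le_mul_of_nonneg_left h3 hNR0.le
      linarith
    exact le_of_mul_le_mul_right (hcomb.trans h2) h1
  have hmN : (m : ℝ) ≤ ε / 4 * N := hmle.trans (mul_le_mul_of_nonneg_right hηε hNR0.le)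
  calc (((Finset.Ioc 0 N).filter (Smooth N)).card : ℝ) ≤ m + B.card := hcard
    _ ≤ ε / 4 * N + (1 / 4 + ε / 4) * N := add_le_add hmN hBle
    _ ≤ (1 / 4 + ε) * N := by nlinarith

end Pool.Agent.J4H60.TR
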