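import Pool.Agent.J4H60.TR.Prime
import Pool.Agent.J4H60.TR.Dens5

/-!
# Tilings of the symmetric group by transpositions: density of the excluded degrees
-/

set_option autoImplicit false

namespace Pool.Agent.J4H60.TR

open Finset Equiv Equiv.Perm

/-- `T_n^*` tiles `S_n`. -/
def TilesA (n : ℕ) : Prop := ∃ Y : Set (Perm (Fin n)), ∀ σ : Perm (Fin n),
  ∃! q : Perm (Fin n) × Perm (Fin n), q.1.IsSwap ∧ q.2 ∈ Y ∧ q.1 * q.2 = σ

/-- `T_n` tiles `S_n`. -/
def TilesB (n : ℕ) : Prop := ∃ Y : Set (Perm (Fin n)), ∀ σ : Perm (Fin n),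
  ∃! q : Perm (Fin n) × Perm (Fin n), (q.1 = 1 ∨ q.1.IsSwap) ∧ q.2 ∈ Y ∧ q.1 * q.2 = σ

lemma big_not (n : ℕ) (hn : 0 < n) (h : Big n) : ¬ TilesA n := by
  obtain ⟨p, hp, hpn, hpb⟩ := h
  have h2 : 2 ≤ n := by
    have := Nat.le_of_dvd hn hpn
    have := hp.two_le
    omega
  exact no_swaps n p h2 hp (hpn.mul_right _) hpb

lemma smooth_of (N n : ℕ) (hn : 2 ≤ n) (hnN : n ≤ N) (h : TilesB n) : Smooth N n := by
  intro p hp hpQ
  by_contra hlt
  push Not at hlt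
  have h2 : 2 * (n * (n - 1) / 2 + 1) = Q n := by
    have h3 : 2 ∣ n * (n - 1) := (Nat.even_mul_pred_self n).two_dvd
    unfold Q
    omega
  have hs1 : 1 ≤ Nat.sqrt N := by
    rw [Nat.le_sqrt]
    omega
  have hp2 : p ≠ 2 := by omega
  have h4 : p ∣ n * (n - 1) / 2 + 1 := by
    rw [← h2] at hpQ
    rcases hp.dvd_mul.1 hpQ with h5 | h5
    · exact absurd ((Nat.prime_dvd_prime_iff_eq hp Nat.prime_two).1 h5) hp2
    · exact h5
  refine no_idswaps n p hn hp h4 ?_ h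
  have h8 : N < (Nat.sqrt N + 1) * (Nat.sqrt N + 1) := Nat.lt_succ_sqrt N
  have h9 : Nat.sqrt N + 1 ≤ p - 1 := by omega
  have h10 : (Nat.sqrt N + 1) ^ 2 ≤ (p - 1) ^ 2 := Nat.pow_le_pow_left h9 2
  nlinarith

open scoped Classical in
theorem density (ε : ℝ) (hε : 0 < ε) : ∃ N0 : ℕ, ∀ N ≥ N0,
    (Real.log 2 - ε) * N ≤ (((Finset.Ioc 0 N).filter (fun n => ¬ TilesA n)).card : ℝ) ∧
    (3 / 4 - ε) * N ≤ (((Finset.Ioc 0 N).filter (fun n => ¬ TilesB n)).card : ℝ) ∧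
    (Real.log 2 - 1 / 4 - ε) * N ≤
      (((Finset.Ioc 0 N).filter (fun n => ¬ TilesA n ∧ ¬ TilesB n)).card : ℝ) := by
  obtain ⟨N1, hN1⟩ := dens_big2 (ε / 4) (by positivity)
  obtain ⟨N2, hN2⟩ := dens_smooth2 (ε / 4) (by positivity)
  obtain ⟨N3, hN3⟩ := exists_nat_gt (4 / ε)
  refine ⟨max (max N1 N2) N3, fun N hN => ?_⟩
  have h1 := hN1 N ((le_max_left _ _).trans ((le_max_left _ _).trans hN))
  have h2 := hN2 N ((le_max_right _ _).trans ((le_max_left _ _).trans hN))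
  have h3 : (N3 : ℝ) ≤ N := by exact_mod_cast (le_max_right _ _).trans hN
  have h4 : 1 ≤ ε / 4 * N := by
    have : 4 / ε < N := lt_of_lt_of_le hN3 h3
    rw [div_lt_iff₀ hε] at this
    linarith
  have hN0 : (0 : ℝ) ≤ N := Nat.cast_nonneg N
  set A := (Finset.Ioc 0 N).filter (fun n => ¬ TilesA n) with hA
  set B := (Finset.Ioc 0 N).filter (fun n => ¬ TilesB n) with hB
  set AB := (Finset.Ioc 0 N).filter (fun n => ¬ TilesA n ∧ ¬ TilesB n) with hAB
  set G := (Finset.Ioc 0 N).filter Big with hG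
  set S := (Finset.Ioc 0 N).filter (Smooth N) with hS
  have e1 : G ⊆ A := by
    intro n hn
    rw [hG, mem_filter] at hn
    rw [hA, mem_filter]
    exact ⟨hn.1, big_not n (mem_Ioc.1 hn.1).1 hn.2⟩
  have e2 : (Finset.Ioc 0 N) ⊆ B ∪ (S ∪ {1}) := by
    intro n hn
    rw [mem_union, mem_union, hB, hS, mem_filter, mem_filter, mem_singleton]
    rw [mem_Ioc] at hn
    by_cases h5 : TilesB n
    · right
      rcases (by omega : n = 1 ∨ 2 ≤ n) with h6 | h6
      · exact Or.inr h6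
      · exact Or.inl ⟨mem_Ioc.2 hn, smooth_of N n h6 hn.2 h5⟩
    · exact Or.inl ⟨mem_Ioc.2 hn, h5⟩
  have e3 : A ⊆ AB ∪ (S ∪ {1}) := by
    intro n hn
    rw [hA, mem_filter] at hn
    rw [mem_union]
    rcases mem_union.1 (e2 hn.1) with h5 | h5
    · left
      rw [hB, mem_filter] at h5
      rw [hAB, mem_filter]
      exact ⟨hn.1, hn.2, h5.2⟩
    · exact Or.inr h5
  have c1 : (G.card : ℝ) ≤ A.card := by exact_mod_cast Finset.card_le_card e1
  have c0 : (S ∪ {1}).card ≤ S.card + 1 := by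
    refine (Finset.card_union_le _ _).trans ?_
    simp
  have c2 : (N : ℝ) ≤ B.card + (S.card + 1) := by
    have h5 := (Finset.card_le_card e2).trans (Finset.card_union_le _ _)
    rw [Nat.card_Ioc, Nat.sub_zero] at h5
    have h6 : N ≤ B.card + (S.card + 1) := by omega
    exact_mod_cast h6
  have c3 : (A.card : ℝ) ≤ AB.card + (S.card + 1) := by
    have h5 := (Finset.card_le_card e3).trans (Finset.card_union_le _ _)
    have h6 : A.card ≤ AB.card + (S.card + 1) := by omega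
    exact_mod_cast h6
  have hεN : 0 ≤ ε * N := by positivity
  refine ⟨?_, ?_, ?_⟩
  · nlinarith
  · nlinarith
  · nlinarith

end Pool.Agent.J4H60.TR
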