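import Pool.Agent.J4H60.TR.Quad

/-!
# Tilings of the symmetric group by transpositions: divisibility by Young subgroups
-/

set_option autoImplicit false

namespace Pool.Agent.J4H60.TR

open Finset Equiv Equiv.Perm

open scoped Classical in
/-- The number of the `g ∈ A` with `w0 ∘ g⁻¹ = w`. -/
noncomputable def cnt {n k : ℕ} (w0 : Fin n → Fin k) (A : Finset (Perm (Fin n)))
    (w : Fin n → Fin k) : ℝ :=
  ((A.filter fun g : Perm (Fin n) => w0 ∘ ⇑(g⁻¹) = w).card : ℝ)

variable {n k : ℕ}

lemma cnt_supp (w0 : Fin n → Fin k) (A : Finset (Perm (Fin n))) (w : Fin n → Fin k)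
    (h : cnt w0 A w ≠ 0) (a : Fin k) :
    (univ.filter fun i => w i = a).card = (univ.filter fun i => w0 i = a).card := by
  classical
  have h1 : (A.filter fun g : Perm (Fin n) => w0 ∘ ⇑(g⁻¹) = w).Nonempty := by
    rw [← Finset.card_pos]
    rcases Nat.eq_zero_or_pos (A.filter fun g : Perm (Fin n) => w0 ∘ ⇑(g⁻¹) = w).card with h2 | h2
    · exfalso
      apply h
      unfold cnt
      rw [h2, Nat.cast_zero]
    · exact h2
  obtain ⟨g, hg⟩ := h1
  obtain ⟨-, hg⟩ := Finset.mem_filter.1 hg
  refine Finset.card_bij (fun i _ => g⁻¹ i) ?_ ?_ ?_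
  · intro i hi
    simp only [mem_filter, mem_univ, true_and] at hi ⊢
    rw [← hi, ← hg]
    rfl
  · intro i _ j _ hij
    exact g⁻¹.injective hij
  · intro j hj
    simp only [mem_filter, mem_univ, true_and] at hj
    refine ⟨g j, ?_, by simp⟩
    simp only [mem_filter, mem_univ, true_and]
    rw [← hg]
    simpa using hj

open scoped Classical in
/-- Sums over ordered pairs and sums over transpositions. -/
lemma pairs (F : Perm (Fin n) → ℝ) :
    (∑ i, ∑ j, if i ≠ j then F (swap i j) else 0) =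
      2 * ∑ t ∈ (univ : Finset (Perm (Fin n))).filter (fun t => t.IsSwap), F t := by
  classical
  have h1 : (∑ i, ∑ j, if i ≠ j then F (swap i j) else 0) =
      ∑ p ∈ (univ : Finset (Fin n × Fin n)).filter (fun p => p.1 ≠ p.2),
        F (swap p.1 p.2) := by
    rw [Finset.sum_filter, ← Finset.univ_product_univ, Finset.sum_product]
  rw [h1, Finset.mul_sum]
  have h2 : ∀ p ∈ (univ : Finset (Fin n × Fin n)).filter (fun p => p.1 ≠ p.2),
      swap p.1 p.2 ∈ (univ : Finset (Perm (Fin n))).filter (fun t => t.IsSwap) := by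
    intro p hp
    simp only [mem_filter, mem_univ, true_and] at hp ⊢
    exact ⟨p.1, p.2, hp, rfl⟩
  rw [← Finset.sum_fiberwise_of_maps_to h2]
  refine Finset.sum_congr ?_ fun t ht => ?_
  · ext t
    simp
  · simp only [mem_filter, mem_univ, true_and] at ht
    obtain ⟨x, y, hxy, rfl⟩ := ht
    have h3 : ((univ : Finset (Fin n × Fin n)).filter (fun p => p.1 ≠ p.2)).filter
        (fun p => swap p.1 p.2 = swap x y) = {(x, y), (y, x)} := by
      ext ⟨i, j⟩
      simp only [mem_filter, mem_univ, true_and, mem_insert, mem_singleton, Prod.mk.injEq]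
      constructor
      · rintro ⟨hij, he⟩
        have h4 : swap x y i = j := by
          rw [← he, swap_apply_left]
        rcases eq_or_ne i x with rfl | hix
        · left
          rw [swap_apply_left] at h4
          exact ⟨rfl, h4.symm⟩
        · rcases eq_or_ne i y with rfl | hiy
          · right
            rw [swap_apply_right] at h4
            exact ⟨rfl, h4.symm⟩
          · exfalso
            rw [swap_apply_of_ne_of_ne hix hiy] at h4
            exact hij h4
      · rintro (⟨rfl, rfl⟩ | ⟨rfl, rfl⟩)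
        · exact ⟨hxy, rfl⟩
        · exact ⟨hxy.symm, swap_comm _ _⟩
    have h5 : ∀ p ∈ ((univ : Finset (Fin n × Fin n)).filter (fun p => p.1 ≠ p.2)).filter
        (fun p => swap p.1 p.2 = swap x y), F (swap p.1 p.2) = F (swap x y) := by
      intro p hp
      rw [(Finset.mem_filter.1 hp).2]
    rw [Finset.sum_congr rfl h5, Finset.sum_const, h3, Finset.card_pair]
    · simp
    · intro h6
      exact hxy (Prod.mk.inj h6).1

open scoped Classical in
/-- The sum over the neighbours of the word. -/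
lemma step (w0 : Fin n → Fin k) (A : Finset (Perm (Fin n))) (w : Fin n → Fin k) :
    (∑ i, ∑ j, if i ≠ j then cnt w0 A (w ∘ swap i j) else 0) =
      2 * ∑ t ∈ (univ : Finset (Perm (Fin n))).filter (fun t => t.IsSwap),
        ∑ g ∈ A, if w0 ∘ ⇑((t * g)⁻¹) = w then (1 : ℝ) else 0 := by
  classical
  rw [pairs (fun t => cnt w0 A (w ∘ t))]
  congr 1
  refine Finset.sum_congr rfl fun t ht => ?_
  simp only [mem_filter, mem_univ, true_and] at ht
  unfold cnt
  rw [Finset.card_filter]
  push_cast
  refine Finset.sum_congr rfl fun g _ => ?_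
  have h1 : (w0 ∘ ⇑(g⁻¹) = w ∘ ⇑t) ↔ (w0 ∘ ⇑((t * g)⁻¹) = w) := by
    rw [mul_inv_rev]
    constructor
    · intro h
      funext i
      have h2 := congrFun h (t⁻¹ i)
      simpa using h2
    · intro h
      funext i
      have h2 := congrFun h (t i)
      simpa using h2
  by_cases h2 : w0 ∘ ⇑(g⁻¹) = w ∘ ⇑t
  · rw [if_pos h2, if_pos (h1.1 h2)]
  · rw [if_neg h2, if_neg (fun h => h2 (h1.2 h))]

lemma card_pairs : (∑ i : Fin n, ∑ j : Fin n, if i ≠ j then (1 : ℝ) else 0) = n * (n - 1) := by
  have h1 : ∀ i : Fin n, (∑ j : Fin n, if i ≠ j then (1 : ℝ) else 0) = n - 1 := by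
    intro i
    rw [← Finset.sum_filter, Finset.sum_const, nsmul_eq_mul, mul_one]
    have h2 : (univ.filter fun j : Fin n => i ≠ j) = univ.erase i := by
      ext j
      simp [eq_comm]
    rw [h2, Finset.card_erase_of_mem (mem_univ i), card_univ, Fintype.card_fin]
    have : 1 ≤ n := i.pos
    push_cast [this]
    ring
  simp_rw [h1]
  rw [Finset.sum_const, card_univ, Fintype.card_fin, nsmul_eq_mul]

open scoped Classical in
lemma step_univ (w0 : Fin n → Fin k) (w : Fin n → Fin k) :
    (∑ i, ∑ j, if i ≠ j then cnt w0 univ (w ∘ swap i j) else 0) =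
      n * (n - 1) * cnt w0 univ w := by
  classical
  rw [step]
  have h1 : ∀ t : Perm (Fin n), (∑ g : Perm (Fin n),
      if w0 ∘ ⇑((t * g)⁻¹) = w then (1 : ℝ) else 0) =
      cnt w0 univ w := by
    intro t
    unfold cnt
    rw [Finset.card_filter]
    push_cast
    exact Fintype.sum_equiv (Equiv.mulLeft t) _ _ (fun g => by
      simp only [coe_mulLeft]
      congr)
  simp_rw [h1]
  rw [Finset.sum_const, nsmul_eq_mul]
  have h2 := pairs (n := n) (fun _ => (1 : ℝ))
  rw [card_pairs, Finset.sum_const, nsmul_eq_mul, mul_one] at h2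
  rw [h2]
  ring

/-- The general conclusion. -/
lemma key (w0 : Fin n → Fin k) (A : Finset (Perm (Fin n))) (c s : ℝ) (hs : 0 ≤ s) (hn : 2 ≤ n)
    (hC : -s < ∑ a : Fin k, ((univ.filter fun i => w0 i = a).card : ℝ) *
      ((univ.filter fun i => w0 i = a).card - 1 - 2 * (a : ℝ)))
    (h : ∀ w, (∑ i, ∑ j, if i ≠ j then cnt w0 A (w ∘ swap i j) else 0) + s * cnt w0 A w =
      c * cnt w0 univ w) :
    (n * (n - 1) + s) * cnt w0 A w0 = c * cnt w0 univ w0 := by
  have hn' : (2 : ℝ) ≤ n := by exact_mod_cast hn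
  have hN : (0 : ℝ) < n * (n - 1) + s := by nlinarith
  set N : ℝ := n * (n - 1) + s with hNdef
  set f : (Fin n → Fin k) → ℝ := fun w => cnt w0 A w - c / N * cnt w0 univ w with hf
  have hsupp : ∀ w, f w ≠ 0 → ∀ a, (univ.filter fun i => w i = a).card =
      (univ.filter fun i => w0 i = a).card := by
    intro w hw a
    by_cases h1 : cnt w0 A w = 0
    · refine cnt_supp w0 univ w ?_ a
      intro h2
      apply hw
      simp [hf, h1, h2]
    · exact cnt_supp w0 A w h1 a
  have hform := form f _ hsupp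
  have hLf : ∀ w, (∑ i, ∑ j, if i ≠ j then f (w ∘ swap i j) else 0) = -s * f w := by
    intro w
    have e1 : (∑ i, ∑ j, if i ≠ j then f (w ∘ swap i j) else 0) =
        (∑ i, ∑ j, if i ≠ j then cnt w0 A (w ∘ swap i j) else 0) -
          c / N * ∑ i, ∑ j, if i ≠ j then cnt w0 univ (w ∘ swap i j) else 0 := by
      rw [Finset.mul_sum, ← Finset.sum_sub_distrib]
      refine Finset.sum_congr rfl fun i _ => ?_
      rw [Finset.mul_sum, ← Finset.sum_sub_distrib]
      refine Finset.sum_congr rfl fun j _ => ?_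
      split_ifs <;> simp [hf]
    rw [e1, step_univ]
    have e2 := h w
    have e3 : (∑ i, ∑ j, if i ≠ j then cnt w0 A (w ∘ swap i j) else 0) =
        c * cnt w0 univ w - s * cnt w0 A w := by linarith
    rw [e3]
    simp only [hf]
    field_simp
    rw [hNdef]
    ring
  simp_rw [hLf] at hform
  have e4 : ∑ w : Fin n → Fin k, f w * (-s * f w) = -s * ∑ w, f w ^ 2 := by
    rw [Finset.mul_sum]
    refine Finset.sum_congr rfl fun w _ => ?_
    ring
  rw [e4] at hform
  have h0 : ∑ w, f w ^ 2 = 0 := by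
    have h1 : 0 ≤ ∑ w, f w ^ 2 := Finset.sum_nonneg fun w _ => sq_nonneg _
    nlinarith
  have h2 : f w0 = 0 := by
    have h3 := (Finset.sum_eq_zero_iff_of_nonneg (fun w _ => sq_nonneg (f w))).1 h0 w0
      (mem_univ w0)
    exact pow_eq_zero_iff (two_ne_zero) |>.1 h3
  simp only [hf] at h2
  have h3 : cnt w0 A w0 = c / N * cnt w0 univ w0 := by linarith
  rw [h3]
  field_simp

lemma cnt_univ (w0 : Fin n → Fin k) :
    cnt w0 univ w0 = ((∏ a : Fin k, (univ.filter fun i => w0 i = a).card.factorial : ℕ) : ℝ) := by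
  classical
  unfold cnt
  congr 1
  have h1 := DomMulAct.stabilizer_card (f := w0)
  have h2 : (univ.filter fun g : Perm (Fin n) => w0 ∘ ⇑(g⁻¹) = w0).card =
      Fintype.card {g : Perm (Fin n) // w0 ∘ g = w0} := by
    rw [Fintype.card_subtype]
    refine congrArg _ (Finset.filter_congr fun g _ => ?_)
    constructor
    · intro h
      funext i
      have h3 := congrFun h (g i)
      simpa using h3.symm
    · intro h
      funext i
      have h3 := congrFun h (g⁻¹ i)
      simpa using h3.symm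
  rw [h2, h1]
  refine Finset.prod_congr rfl fun a _ => ?_
  rw [Fintype.card_subtype]

open scoped Classical in
/-- For a tiling by transpositions. -/
lemma tile_sum (T : Perm (Fin n) → Prop) (Y : Set (Perm (Fin n)))
    (hT : ∀ σ : Perm (Fin n), ∃! p : Perm (Fin n) × Perm (Fin n),
      T p.1 ∧ p.2 ∈ Y ∧ p.1 * p.2 = σ) (φ : Perm (Fin n) → ℝ) :
    (∑ t ∈ (univ : Finset (Perm (Fin n))).filter (fun t => T t),
      ∑ y ∈ (univ : Finset (Perm (Fin n))).filter (fun y => y ∈ Y), φ (t * y)) = ∑ σ, φ σ := by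
  classical
  rw [← Finset.sum_product']
  refine Finset.sum_bij (fun p _ => p.1 * p.2) ?_ ?_ ?_ ?_
  · intro p _
    exact mem_univ _
  · intro p hp q hq hpq
    simp only [mem_product, mem_filter, mem_univ, true_and] at hp hq
    obtain ⟨r, -, hr⟩ := hT (p.1 * p.2)
    rw [hr p ⟨hp.1, hp.2, rfl⟩, hr q ⟨hq.1, hq.2, hpq.symm⟩]
  · intro σ _
    obtain ⟨p, ⟨h1, h2, h3⟩, -⟩ := hT σ
    refine ⟨p, ?_, h3⟩
    simp only [mem_product, mem_filter, mem_univ, true_and]
    exact ⟨h1, h2⟩
  · intro p _
    rfl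

end Pool.Agent.J4H60.TR
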