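import Pool.Agent.J4H60.TR.Tile

/-!
# Tilings of the symmetric group by transpositions: the prime criterion
-/

set_option autoImplicit false

namespace Pool.Agent.J4H60.TR

open Finset Equiv Equiv.Perm

/-- `n / q` rows of length `q` and one of length `n % q`. -/
def lamP (q n : ℕ) (i : Fin (n / q + 1)) : ℕ := if i.val < n / q then q else n % q

lemma lamP_sum (q n : ℕ) : ∑ i, lamP q n i = n := by
  rw [Fin.sum_univ_castSucc]
  have h1 : ∀ i : Fin (n / q), lamP q n i.castSucc = q := by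
    intro i
    simp [lamP]
  have h2 : lamP q n (Fin.last (n / q)) = n % q := by
    simp [lamP]
  simp_rw [h1]
  rw [h2, Finset.sum_const, card_univ, Fintype.card_fin, smul_eq_mul, mul_comm]
  exact Nat.div_add_mod n q

lemma lamP_content (q n : ℕ) :
    ∑ i : Fin (n / q + 1), (lamP q n i : ℤ) * (lamP q n i - 1 - 2 * (i : ℤ)) =
      (n / q : ℕ) * ((q : ℤ) - (n / q : ℕ) - 1) * (q + 1) +
        ((n % q : ℕ) - (n / q : ℕ) : ℤ) * ((n % q : ℕ) - (n / q : ℕ) - 1) := by
  rw [Fin.sum_univ_castSucc]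
  have h1 : ∀ i : Fin (n / q), lamP q n i.castSucc = q := by
    intro i
    simp [lamP]
  have h2 : lamP q n (Fin.last (n / q)) = n % q := by
    simp [lamP]
  simp_rw [h1]
  rw [h2]
  have h3 : ∀ m : ℕ, ∑ i : Fin m, (q : ℤ) * (q - 1 - 2 * ((i.castSucc : Fin (m + 1)) : ℤ)) =
      q * m * (q - m) := by
    intro m
    have h4 : ∑ i : Fin m, (q : ℤ) * (q - 1 - 2 * ((i.castSucc : Fin (m + 1)) : ℤ)) =
        ∑ i ∈ Finset.range m, (q : ℤ) * (q - 1 - 2 * (i : ℤ)) := by
      rw [Finset.sum_range]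
      rfl
    rw [h4]
    induction m with
    | zero => simp
    | succ m ih =>
      rw [Finset.sum_range_succ]
      have h5 : ∑ i ∈ Finset.range m, (q : ℤ) * (q - 1 - 2 * (i : ℤ)) = q * m * (q - m) := by
        apply ih
        rw [Finset.sum_range]
        rfl
      rw [h5]
      push_cast
      ring
  rw [h3]
  simp only [Fin.val_last]
  ring

lemma lamP_pos (q n : ℕ) (hn : 2 ≤ n) (h : n + 2 ≤ q ^ 2) :
    0 < ∑ i : Fin (n / q + 1), (lamP q n i : ℤ) * (lamP q n i - 1 - 2 * (i : ℤ)) := by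
  rw [lamP_content]
  have hq : 0 < q := by
    rcases Nat.eq_zero_or_pos q with h0 | h0
    · rw [h0] at h
      norm_num at h
    · exact h0
  have hr : n % q < q := Nat.mod_lt _ hq
  have hd : q * (n / q) + n % q = n := Nat.div_add_mod n q
  have hm : n / q < q := by
    rw [Nat.div_lt_iff_lt_mul hq]
    nlinarith
  generalize n / q = m at *
  generalize n % q = r at *
  have hr' : (r : ℤ) < q := by exact_mod_cast hr
  have hd' : (q : ℤ) * m + r = n := by exact_mod_cast hd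
  have hm' : (m : ℤ) + 1 ≤ q := by exact_mod_cast hm
  have hn' : (2 : ℤ) ≤ n := by exact_mod_cast hn
  have h' : (n : ℤ) + 2 ≤ q ^ 2 := by exact_mod_cast h
  have hm0 : (0 : ℤ) ≤ m := Int.natCast_nonneg m
  have hr0 : (0 : ℤ) ≤ r := Int.natCast_nonneg r
  have h1 : 0 ≤ ((r : ℤ) - m) * (r - m - 1) := by
    rcases le_or_gt (r : ℤ) m with h2 | h2
    · nlinarith
    · have : (0 : ℤ) ≤ r - m - 1 := by linarith
      nlinarith
  rcases Nat.eq_zero_or_pos m with h2 | h2
  · rw [h2] at hd' ⊢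
    have h3 : (r : ℤ) = n := by
      rw [← hd']
      push_cast
      ring
    rw [h3]
    push_cast
    nlinarith
  · have h2' : (1 : ℤ) ≤ m := by exact_mod_cast h2
    rcases hm'.lt_or_eq with h3 | h3
    · have h4 : (1 : ℤ) ≤ q - m - 1 := by linarith
      have h5 : 0 < (m : ℤ) * (q - m - 1) * (q + 1) := by positivity
      linarith
    · have h4 : (q : ℤ) - m - 1 = 0 := by linarith
      rw [h4]
      have h5 : (r : ℤ) ≤ m - 1 := by nlinarith
      nlinarith

lemma lamP_nonneg (q n : ℕ) (hn : 2 ≤ n) (h : n ≤ q ^ 2) :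
    0 ≤ ∑ i : Fin (n / q + 1), (lamP q n i : ℤ) * (lamP q n i - 1 - 2 * (i : ℤ)) := by
  rw [lamP_content]
  have hq : 0 < q := by
    rcases Nat.eq_zero_or_pos q with h0 | h0
    · rw [h0] at h
      norm_num at h
      omega
    · exact h0
  have hr : n % q < q := Nat.mod_lt _ hq
  have hd : q * (n / q) + n % q = n := Nat.div_add_mod n q
  have hm : n / q ≤ q := by
    rw [Nat.div_le_iff_le_mul_add_pred hq]
    nlinarith
  generalize n / q = m at *
  generalize n % q = r at *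
  have hr' : (r : ℤ) < q := by exact_mod_cast hr
  have hd' : (q : ℤ) * m + r = n := by exact_mod_cast hd
  have hm' : (m : ℤ) ≤ q := by exact_mod_cast hm
  have h' : (n : ℤ) ≤ q ^ 2 := by exact_mod_cast h
  have hm0 : (0 : ℤ) ≤ m := Int.natCast_nonneg m
  have hr0 : (0 : ℤ) ≤ r := Int.natCast_nonneg r
  have h1 : 0 ≤ ((r : ℤ) - m) * (r - m - 1) := by
    rcases le_or_gt (r : ℤ) m with h2 | h2
    · nlinarith
    · have : (0 : ℤ) ≤ r - m - 1 := by linarith
      nlinarith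
  rcases hm'.lt_or_eq with h3 | h3
  · have h4 : (0 : ℤ) ≤ q - m - 1 := by linarith
    have h5 : 0 ≤ (m : ℤ) * (q - m - 1) * (q + 1) := by positivity
    linarith
  · have h5 : (r : ℤ) = 0 := by nlinarith
    rw [h3, h5]
    ring_nf
    exact le_rfl

lemma not_dvd_prod (p n : ℕ) (hp : p.Prime) : ¬ p ∣ ∏ i, (lamP (p - 1) n i).factorial := by
  intro h
  obtain ⟨i, -, hi⟩ := (hp.prime.dvd_finset_prod_iff _).1 h
  rw [hp.dvd_factorial] at hi
  have h1 : lamP (p - 1) n i ≤ p - 1 := by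
    unfold lamP
    split_ifs
    · exact le_rfl
    · exact (Nat.mod_lt _ (by have := hp.two_le; omega)).le
  have := hp.two_le
  omega

/-- No tiling by transpositions if `n (n - 1)` has a prime factor `p > 1 + √(n + 2)`. -/
theorem no_swaps (n p : ℕ) (hn : 2 ≤ n) (hp : p.Prime) (hpn : p ∣ n * (n - 1))
    (h : n + 2 ≤ (p - 1) ^ 2) :
    ¬ ∃ Y : Set (Perm (Fin n)), ∀ σ : Perm (Fin n),
      ∃! q : Perm (Fin n) × Perm (Fin n), q.1.IsSwap ∧ q.2 ∈ Y ∧ q.1 * q.2 = σ := by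
  rintro ⟨Y, hY⟩
  exact not_dvd_prod p n hp (hpn.trans (swaps_dvd hn Y hY (lamP (p - 1) n)
    (lamP_sum _ _) (lamP_pos _ _ hn h)))

/-- No tiling by the identity and transpositions if `n (n - 1) / 2 + 1` has a prime factor
`p ≥ 1 + √n`. -/
theorem no_idswaps (n p : ℕ) (hn : 2 ≤ n) (hp : p.Prime) (hpn : p ∣ n * (n - 1) / 2 + 1)
    (h : n ≤ (p - 1) ^ 2) :
    ¬ ∃ Y : Set (Perm (Fin n)), ∀ σ : Perm (Fin n),
      ∃! q : Perm (Fin n) × Perm (Fin n), (q.1 = 1 ∨ q.1.IsSwap) ∧ q.2 ∈ Y ∧ q.1 * q.2 = σ := by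
  rintro ⟨Y, hY⟩
  have h1 := idswaps_dvd hn Y hY (lamP (p - 1) n) (lamP_sum _ _) (lamP_nonneg _ _ hn h)
  have h2 : 2 * (n * (n - 1) / 2 + 1) = n * (n - 1) + 2 := by
    have h3 : 2 ∣ n * (n - 1) := (Nat.even_mul_pred_self n).two_dvd
    omega
  rw [← h2] at h1
  exact not_dvd_prod p n hp (hpn.trans (Nat.dvd_of_mul_dvd_mul_left two_pos h1))

end Pool.Agent.J4H60.TR
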