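import Mathlib

/-!
# The quadratic form of the transpositions on words

For functions `f` on words `w : Fin n → Fin k` with given numbers `lam a` of letters `a`,
`∑ f(w) ∑_{i ≠ j} f(w ∘ (i j)) ≥ (∑ lam a (lam a - 1 - 2 a)) ∑ f(w)^2`.
-/

set_option autoImplicit false

namespace Pool.Agent.J4H60.TR

open Finset Equiv

variable {n k : ℕ}

/-- Reindexing: change the letter `i` from `a` to `b`. -/
lemma re (i : Fin n) (a b : Fin k) (G : (Fin n → Fin k) → (Fin n → Fin k) → ℝ) :
    (∑ w : Fin n → Fin k, if w i = a then G (Function.update w i b) w else 0) =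
      ∑ w : Fin n → Fin k, if w i = b then G w (Function.update w i a) else 0 := by
  rw [← Finset.sum_filter, ← Finset.sum_filter]
  refine Finset.sum_nbij' (fun w => Function.update w i b) (fun w => Function.update w i a)
    ?_ ?_ ?_ ?_ ?_
  · intro w hw
    simp
  · intro w hw
    simp
  · intro w hw
    simp only [mem_filter, mem_univ, true_and] at hw
    rw [Function.update_idem, ← hw, Function.update_eq_self]
  · intro w hw
    simp only [mem_filter, mem_univ, true_and] at hw
    rw [Function.update_idem, ← hw, Function.update_eq_self]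
  · intro w hw
    simp only [mem_filter, mem_univ, true_and] at hw
    congr 1
    rw [Function.update_idem, ← hw, Function.update_eq_self]

lemma upd_swap (w : Fin n → Fin k) (i j : Fin n) (a b : Fin k) (hi : w i = b) (hj : w j = a)
    (hij : i ≠ j) :
    Function.update (Function.update w i a) j b = w ∘ swap i j := by
  funext x
  rcases eq_or_ne x j with rfl | hxj
  · simp [hi]
  · rcases eq_or_ne x i with rfl | hxi
    · simp [hxj, hj]
    · simp [hxj, hxi, swap_apply_of_ne_of_ne hxi hxj]

/-- The square of the raising operator. -/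
lemma square (f : (Fin n → Fin k) → ℝ) (a b : Fin k) (hab : a ≠ b) :
    ∑ w : Fin n → Fin k, (∑ i, if w i = a then f (Function.update w i b) else 0) ^ 2 =
      (∑ w : Fin n → Fin k, ∑ i, if w i = b then f w * f w else 0) +
      ∑ w : Fin n → Fin k, ∑ i, ∑ j, if w i = b ∧ w j = a then f w * f (w ∘ swap i j) else 0 := by
  have h1 : ∀ w : Fin n → Fin k,
      (∑ i, if w i = a then f (Function.update w i b) else 0) ^ 2 =
        ∑ i, ∑ j, if w i = a then (if w j = a then
          f (Function.update w i b) * f (Function.update w j b) else 0) else 0 := by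
    intro w
    rw [sq, Finset.sum_mul_sum]
    refine Finset.sum_congr rfl fun i _ => Finset.sum_congr rfl fun j _ => ?_
    split_ifs <;> simp
  simp_rw [h1]
  have h2 : ∀ i j : Fin n, (∑ w : Fin n → Fin k, if w i = a then (if w j = a then
          f (Function.update w i b) * f (Function.update w j b) else 0) else 0) =
      (if i = j then ∑ w : Fin n → Fin k, (if w i = b then f w * f w else 0) else 0) +
        ∑ w : Fin n → Fin k, (if w i = b ∧ w j = a then f w * f (w ∘ swap i j) else 0) := by
    intro i j
    rcases eq_or_ne i j with rfl | hij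
    · have h3 := re i a b (fun w _ => f w * f w)
      simp only [if_true]
      have h4 : ∀ w : Fin n → Fin k, (if w i = a then (if w i = a then
          f (Function.update w i b) * f (Function.update w i b) else 0) else 0) =
          if w i = a then f (Function.update w i b) * f (Function.update w i b) else 0 := by
        intro w
        split_ifs <;> rfl
      simp_rw [h4]
      rw [h3]
      have h5 : ∀ w : Fin n → Fin k,
          (if w i = b ∧ w i = a then f w * f (w ∘ swap i i) else 0) = 0 := by
        intro w
        rw [if_neg]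
        rintro ⟨h6, h7⟩
        exact hab (h7.symm.trans h6)
      rw [Finset.sum_congr rfl (fun w _ => h5 w), Finset.sum_const_zero, add_zero]
    · rw [if_neg hij, zero_add]
      have h3 := re i a b
        (fun w w' => if w' j = a then f w * f (Function.update w' j b) else 0)
      rw [h3]
      refine Finset.sum_congr rfl fun w _ => ?_
      by_cases hi : w i = b
      · by_cases hj : w j = a
        · have h7 : Function.update w i a j = a := by
            rw [Function.update_of_ne hij.symm]
            exact hj
          rw [if_pos hi, if_pos h7, if_pos (And.intro hi hj), upd_swap w i j a b hi hj hij]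
        · have h7 : ¬ Function.update w i a j = a := by
            rw [Function.update_of_ne hij.symm]
            exact hj
          have h8 : ¬ (w i = b ∧ w j = a) := fun h => hj h.2
          rw [if_pos hi, if_neg h7, if_neg h8]
      · have h8 : ¬ (w i = b ∧ w j = a) := fun h => hi h.1
        rw [if_neg hi, if_neg h8]
  rw [Finset.sum_comm]
  have h6 : ∀ i : Fin n, (∑ w : Fin n → Fin k, ∑ j, if w i = a then (if w j = a then
          f (Function.update w i b) * f (Function.update w j b) else 0) else 0) =
      (∑ w : Fin n → Fin k, (if w i = b then f w * f w else 0)) +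
        ∑ w : Fin n → Fin k, ∑ j, (if w i = b ∧ w j = a then f w * f (w ∘ swap i j) else 0) := by
    intro i
    rw [Finset.sum_comm]
    simp_rw [h2 i]
    rw [Finset.sum_add_distrib]
    congr 1
    · simp
    · rw [Finset.sum_comm]
  simp_rw [h6]
  rw [Finset.sum_add_distrib]
  congr 1
  · rw [Finset.sum_comm]
  · rw [Finset.sum_comm]

/-- The sum over the pairs `a < b`. -/
lemma lower (f : (Fin n → Fin k) → ℝ) (lam : Fin k → ℕ)
    (hf : ∀ w, f w ≠ 0 → ∀ a, (univ.filter fun i => w i = a).card = lam a) :
    -(∑ w, f w ^ 2) * (∑ b : Fin k, (b : ℝ) * lam b) ≤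
      ∑ w : Fin n → Fin k, ∑ i, ∑ j, if w j < w i then f w * f (w ∘ swap i j) else 0 := by
  have h0 : (0 : ℝ) ≤ ∑ b : Fin k, ∑ a : Fin k, if a < b then
      ∑ w : Fin n → Fin k, (∑ i, if w i = a then f (Function.update w i b) else 0) ^ 2 else 0 := by
    refine Finset.sum_nonneg fun b _ => Finset.sum_nonneg fun a _ => ?_
    split_ifs
    · exact Finset.sum_nonneg fun w _ => sq_nonneg _
    · exact le_rfl
  have h1 : ∀ b a : Fin k, (if a < b then
      ∑ w : Fin n → Fin k, (∑ i, if w i = a then f (Function.update w i b) else 0) ^ 2 else 0) =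
      (if a < b then (∑ w : Fin n → Fin k, ∑ i, if w i = b then f w * f w else 0) else 0) +
      ∑ w : Fin n → Fin k, ∑ i, ∑ j, (if a < b then
        (if w i = b ∧ w j = a then f w * f (w ∘ swap i j) else 0) else 0) := by
    intro b a
    by_cases h : a < b
    · simp only [if_pos h]
      exact square f a b h.ne
    · simp [h]
  simp_rw [h1, Finset.sum_add_distrib] at h0
  have h2 : (∑ b : Fin k, ∑ a : Fin k,
      (if a < b then (∑ w : Fin n → Fin k, ∑ i, if w i = b then f w * f w else 0) else 0)) =
      (∑ w, f w ^ 2) * (∑ b : Fin k, (b : ℝ) * lam b) := by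
    rw [Finset.mul_sum]
    refine Finset.sum_congr rfl fun b _ => ?_
    rw [← Finset.sum_filter, Finset.sum_const]
    have h3 : (univ.filter fun a : Fin k => a < b).card = (b : ℕ) := by
      rw [show (univ.filter fun a : Fin k => a < b) = Finset.Iio b by ext; simp, Fin.card_Iio]
    rw [h3, nsmul_eq_mul]
    have h4 : (∑ w : Fin n → Fin k, ∑ i, if w i = b then f w * f w else 0) =
        ∑ w, f w ^ 2 * lam b := by
      refine Finset.sum_congr rfl fun w _ => ?_
      rw [← Finset.sum_filter, Finset.sum_const, nsmul_eq_mul]
      by_cases hw : f w = 0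
      · simp [hw]
      · rw [hf w hw b]
        ring
    rw [h4, ← Finset.sum_mul]
    ring
  have h3 : (∑ b : Fin k, ∑ a : Fin k, ∑ w : Fin n → Fin k, ∑ i, ∑ j, (if a < b then
        (if w i = b ∧ w j = a then f w * f (w ∘ swap i j) else 0) else 0)) =
      ∑ w : Fin n → Fin k, ∑ i, ∑ j, if w j < w i then f w * f (w ∘ swap i j) else 0 := by
    have e1 : ∀ b : Fin k, (∑ a : Fin k, ∑ w : Fin n → Fin k, ∑ i, ∑ j, (if a < b then
        (if w i = b ∧ w j = a then f w * f (w ∘ swap i j) else 0) else 0)) =
        ∑ w : Fin n → Fin k, ∑ i, ∑ j, ∑ a : Fin k, (if a < b then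
        (if w i = b ∧ w j = a then f w * f (w ∘ swap i j) else 0) else 0) := by
      intro b
      rw [Finset.sum_comm]
      refine Finset.sum_congr rfl fun w _ => ?_
      rw [Finset.sum_comm]
      refine Finset.sum_congr rfl fun i _ => ?_
      rw [Finset.sum_comm]
    simp_rw [e1]
    rw [Finset.sum_comm]
    refine Finset.sum_congr rfl fun w _ => ?_
    rw [Finset.sum_comm]
    refine Finset.sum_congr rfl fun i _ => ?_
    rw [Finset.sum_comm]
    refine Finset.sum_congr rfl fun j _ => ?_
    rw [Finset.sum_eq_single (w i), Finset.sum_eq_single (w j)]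
    · simp
    · intro a _ ha
      have : ¬ (w i = w i ∧ w j = a) := fun h => ha h.2.symm
      simp [this, ha.symm]
    · simp
    · intro b _ hb
      refine Finset.sum_eq_zero fun a _ => ?_
      have : ¬ (w i = b ∧ w j = a) := fun h => hb h.1.symm
      rw [if_neg this, ite_self]
    · simp
  rw [h2, h3] at h0
  linarith

/-- The main inequality. -/
theorem form (f : (Fin n → Fin k) → ℝ) (lam : Fin k → ℕ)
    (hf : ∀ w, f w ≠ 0 → ∀ a, (univ.filter fun i => w i = a).card = lam a) :
    (∑ a : Fin k, (lam a : ℝ) * (lam a - 1 - 2 * (a : ℝ))) * (∑ w, f w ^ 2) ≤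
      ∑ w : Fin n → Fin k, f w * ∑ i, ∑ j, if i ≠ j then f (w ∘ swap i j) else 0 := by
  have hL := lower f lam hf
  have h1 : ∀ w : Fin n → Fin k, f w * (∑ i, ∑ j, if i ≠ j then f (w ∘ swap i j) else 0) =
      f w ^ 2 * (∑ a : Fin k, (lam a : ℝ) * (lam a - 1)) +
        ((∑ i, ∑ j, if w j < w i then f w * f (w ∘ swap i j) else 0) +
          ∑ i, ∑ j, if w j < w i then f w * f (w ∘ swap i j) else 0) := by
    intro w
    have h2 : (∑ i, ∑ j, if w i < w j then f w * f (w ∘ swap i j) else 0) =
        ∑ i, ∑ j, if w j < w i then f w * f (w ∘ swap i j) else 0 := by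
      rw [Finset.sum_comm]
      refine Finset.sum_congr rfl fun i _ => Finset.sum_congr rfl fun j _ => ?_
      rw [swap_comm]
    have h3 : f w * (∑ i, ∑ j, if i ≠ j then f (w ∘ swap i j) else 0) =
        (∑ i, ∑ j, if i ≠ j ∧ w i = w j then f w * f w else 0) +
        ((∑ i, ∑ j, if w i < w j then f w * f (w ∘ swap i j) else 0) +
          ∑ i, ∑ j, if w j < w i then f w * f (w ∘ swap i j) else 0) := by
      rw [Finset.mul_sum]
      simp_rw [Finset.mul_sum]
      rw [← Finset.sum_add_distrib, ← Finset.sum_add_distrib]
      refine Finset.sum_congr rfl fun i _ => ?_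
      rw [← Finset.sum_add_distrib, ← Finset.sum_add_distrib]
      refine Finset.sum_congr rfl fun j _ => ?_
      rcases eq_or_ne i j with rfl | hij
      · simp
      · rcases lt_trichotomy (w i) (w j) with h | h | h
        · simp [hij, h, h.ne, h.not_gt]
        · have e : w ∘ swap i j = w := by
            funext x
            simp only [Function.comp]
            rcases eq_or_ne x i with rfl | hx
            · rw [swap_apply_left, h]
            · rcases eq_or_ne x j with rfl | hx2
              · rw [swap_apply_right, h]
              · rw [swap_apply_of_ne_of_ne hx hx2]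
          simp [hij, h, e]
        · simp [hij, h, h.ne', h.not_gt]
    rw [h3, h2]
    congr 1
    by_cases hw : f w = 0
    · simp [hw]
    · have h4 : ∀ i, (∑ j, if i ≠ j ∧ w i = w j then f w * f w else 0) =
          f w * f w * ((lam (w i) : ℝ) - 1) := by
        intro i
        rw [← Finset.sum_filter, Finset.sum_const, nsmul_eq_mul]
        have h5 : (univ.filter fun j => i ≠ j ∧ w i = w j) =
            (univ.filter fun j => w j = w i).erase i := by
          ext j
          simp only [mem_filter, mem_univ, true_and, mem_erase]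
          constructor
          · rintro ⟨h6, h7⟩
            exact ⟨h6.symm, h7.symm⟩
          · rintro ⟨h6, h7⟩
            exact ⟨h6.symm, h7.symm⟩
        have h6 : i ∈ univ.filter fun j => w j = w i := by simp
        have h7 : 1 ≤ (univ.filter fun j => w j = w i).card := Finset.card_pos.2 ⟨i, h6⟩
        rw [h5, Finset.card_erase_of_mem h6, Nat.cast_sub h7, hf w hw]
        push_cast
        ring
      simp_rw [h4]
      rw [← Finset.mul_sum, sq]
      congr 1
      have h8 : ∑ i : Fin n, ((lam (w i) : ℝ) - 1) =
          ∑ a : Fin k, ∑ i ∈ univ.filter (fun i => w i = a), ((lam (w i) : ℝ) - 1) := by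
        rw [Finset.sum_fiberwise]
      rw [h8]
      refine Finset.sum_congr rfl fun a _ => ?_
      have h9 : ∀ i ∈ univ.filter (fun i => w i = a), ((lam (w i) : ℝ) - 1) =
          (lam a : ℝ) - 1 := by
        intro i hi
        rw [(mem_filter.1 hi).2]
      rw [Finset.sum_congr rfl h9, Finset.sum_const, nsmul_eq_mul, hf w hw a]
  simp_rw [h1]
  rw [Finset.sum_add_distrib, Finset.sum_add_distrib, ← Finset.sum_mul]
  have h2 : (∑ a : Fin k, (lam a : ℝ) * (lam a - 1 - 2 * (a : ℝ))) =
      (∑ a : Fin k, (lam a : ℝ) * (lam a - 1)) - 2 * ∑ b : Fin k, (b : ℝ) * lam b := by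
    rw [Finset.mul_sum, ← Finset.sum_sub_distrib]
    refine Finset.sum_congr rfl fun a _ => ?_
    ring
  rw [h2]
  linarith

end Pool.Agent.J4H60.TR
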