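import Pool.Agent.J4H60.TR.Prime

/-!
# Tilings of the symmetric group by transpositions: small `n`
-/

set_option autoImplicit false

namespace Pool.Agent.J4H60.TR

open Finset Equiv Equiv.Perm

lemma lamP_prod (q n : ℕ) :
    ∏ i, (lamP q n i).factorial = q.factorial ^ (n / q) * (n % q).factorial := by
  rw [Fin.prod_univ_castSucc]
  have h1 : ∀ i : Fin (n / q), lamP q n i.castSucc = q := by
    intro i
    simp [lamP]
  have h2 : lamP q n (Fin.last (n / q)) = n % q := by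
    simp [lamP]
  simp_rw [h1]
  rw [h2, Finset.prod_const, card_univ, Fintype.card_fin]

/-- the numbers `n ≤ 159` treated with other partitions, and the exceptions -/
def oth1 : List ℕ := [0, 1, 2, 3, 4, 9, 25, 49, 50, 121, 16, 36, 64, 81, 99, 100, 126, 144]

/-- the numbers `n ≤ 159` treated with other partitions, and the exception -/
def oth2 : List ℕ := [0, 1, 2, 3, 6, 137, 91]

/-- row lengths -/
def cert1 : List ℕ :=
    [0, 0, 0, 0, 0, 4, 4, 6, 6, 0, 4, 10, 10, 12, 12, 6, 0, 16, 16, 18, 18, 6, 10, 22, 22, 0,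
    12, 12, 6, 28, 28, 30, 30, 10, 16, 16, 0, 36, 36, 18, 12, 40, 40, 42, 42, 10, 22, 46, 46, 0,
    0, 16, 16, 52, 52, 10, 10, 18, 28, 58, 58, 60, 60, 30, 0, 12, 12, 66, 66, 22, 22, 70, 70,
    72, 72, 36, 18, 18, 12, 78, 78, 0, 40, 82, 82, 16, 42, 42, 28, 88, 88, 12, 22, 30, 46, 46,
    18, 96, 96, 0, 0, 100, 100, 102, 102, 12, 52, 106, 106, 108, 108, 36, 36, 112, 112, 22, 28,
    28, 58, 58, 16, 0, 60, 60, 40, 30, 0, 126, 126, 42, 42, 130, 130, 18, 66, 66, 16, 136, 136,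
    138, 138, 46, 70, 70, 0, 28, 72, 72, 36, 148, 148, 150, 150, 18, 16, 30, 30, 156, 156, 78]

/-- row lengths -/
def cert2 : List ℕ :=
    [0, 0, 0, 0, 4, 5, 0, 7, 8, 9, 10, 6, 12, 13, 14, 15, 10, 17, 10, 19, 20, 21, 22, 23, 24,
    25, 26, 10, 28, 29, 30, 31, 32, 22, 34, 35, 36, 28, 10, 39, 40, 41, 42, 43, 44, 45, 36, 47,
    48, 49, 50, 28, 52, 53, 54, 55, 56, 57, 58, 59, 22, 61, 42, 63, 64, 65, 36, 67, 52, 69, 70,
    71, 72, 73, 74, 75, 76, 77, 78, 66, 80, 81, 82, 36, 84, 85, 86, 87, 88, 89, 90, 0, 78, 93,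
    94, 28, 96, 97, 98, 99, 100, 101, 22, 70, 104, 105, 22, 107, 108, 28, 110, 70, 112, 113,
    114, 115, 116, 117, 118, 119, 120, 121, 122, 66, 124, 125, 126, 127, 128, 129, 130, 131,
    132, 133, 134, 135, 136, 0, 138, 108, 140, 141, 142, 143, 144, 145, 78, 147, 42, 149, 126,
    151, 152, 153, 136, 155, 112, 157, 158, 159]

/-- the test for `T_n^*` -/
def chk1 (n q : ℕ) : Bool :=
  decide (n + 2 ≤ q ^ 2) &&
    !(decide ((q.factorial ^ (n / q) * (n % q).factorial) % (n * (n - 1)) = 0))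

/-- the test for `T_n` -/
def chk2 (n q : ℕ) : Bool :=
  decide (n ≤ q ^ 2) &&
    !(decide ((2 * (q.factorial ^ (n / q) * (n % q).factorial)) % (n * (n - 1) + 2) = 0))

theorem all1 :
    (List.range 160).all (fun n => oth1.contains n || chk1 n (cert1.getD n 0)) = true := by
  decide +kernel

theorem all2 :
    (List.range 160).all (fun n => oth2.contains n || chk2 n (cert2.getD n 0)) = true := by
  decide +kernel

lemma swaps_of_chk (n q : ℕ) (hn : 2 ≤ n) (h : chk1 n q = true) :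
    ¬ ∃ Y : Set (Perm (Fin n)), ∀ σ : Perm (Fin n),
      ∃! q : Perm (Fin n) × Perm (Fin n), q.1.IsSwap ∧ q.2 ∈ Y ∧ q.1 * q.2 = σ := by
  rintro ⟨Y, hY⟩
  simp only [chk1, Bool.and_eq_true, decide_eq_true_eq, Bool.not_eq_true', decide_eq_false_iff_not]
    at h
  have h1 := swaps_dvd hn Y hY (lamP q n) (lamP_sum _ _) (lamP_pos _ _ hn h.1)
  rw [lamP_prod] at h1
  exact h.2 (Nat.mod_eq_zero_of_dvd h1)

lemma idswaps_of_chk (n q : ℕ) (hn : 2 ≤ n) (h : chk2 n q = true) :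
    ¬ ∃ Y : Set (Perm (Fin n)), ∀ σ : Perm (Fin n),
      ∃! q : Perm (Fin n) × Perm (Fin n), (q.1 = 1 ∨ q.1.IsSwap) ∧ q.2 ∈ Y ∧ q.1 * q.2 = σ := by
  rintro ⟨Y, hY⟩
  simp only [chk2, Bool.and_eq_true, decide_eq_true_eq, Bool.not_eq_true', decide_eq_false_iff_not]
    at h
  have h1 := idswaps_dvd hn Y hY (lamP q n) (lamP_sum _ _) (lamP_nonneg _ _ hn h.1)
  rw [lamP_prod] at h1
  exact h.2 (Nat.mod_eq_zero_of_dvd h1)

lemma swaps_of_vec (n k : ℕ) (hn : 2 ≤ n) (lam : Fin k → ℕ) (h1 : ∑ a, lam a = n)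
    (h2 : 0 < ∑ a : Fin k, (lam a : ℤ) * (lam a - 1 - 2 * (a : ℤ)))
    (h3 : ¬ n * (n - 1) ∣ ∏ a, (lam a).factorial) :
    ¬ ∃ Y : Set (Perm (Fin n)), ∀ σ : Perm (Fin n),
      ∃! q : Perm (Fin n) × Perm (Fin n), q.1.IsSwap ∧ q.2 ∈ Y ∧ q.1 * q.2 = σ := by
  rintro ⟨Y, hY⟩
  exact h3 (swaps_dvd hn Y hY lam h1 h2)

lemma idswaps_of_vec (n k : ℕ) (hn : 2 ≤ n) (lam : Fin k → ℕ) (h1 : ∑ a, lam a = n)
    (h2 : 0 ≤ ∑ a : Fin k, (lam a : ℤ) * (lam a - 1 - 2 * (a : ℤ)))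
    (h3 : ¬ n * (n - 1) + 2 ∣ 2 * ∏ a, (lam a).factorial) :
    ¬ ∃ Y : Set (Perm (Fin n)), ∀ σ : Perm (Fin n),
      ∃! q : Perm (Fin n) × Perm (Fin n), (q.1 = 1 ∨ q.1.IsSwap) ∧ q.2 ∈ Y ∧ q.1 * q.2 = σ := by
  rintro ⟨Y, hY⟩
  exact h3 (idswaps_dvd hn Y hY lam h1 h2)

theorem small1 (n : ℕ) (h4 : 4 ≤ n) (h : n ≤ 159)
    (hex : n ∉ [16, 36, 64, 81, 99, 100, 126, 144]) :
    ¬ ∃ Y : Set (Perm (Fin n)), ∀ σ : Perm (Fin n),
      ∃! q : Perm (Fin n) × Perm (Fin n), q.1.IsSwap ∧ q.2 ∈ Y ∧ q.1 * q.2 = σ := by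
  have h1 := List.all_eq_true.1 all1 n (List.mem_range.2 (by omega))
  rw [Bool.or_eq_true] at h1
  rcases h1 with h1 | h1
  · have h2 : n = 4 ∨ n = 9 ∨ n = 25 ∨ n = 49 ∨ n = 50 ∨ n = 121 := by
      simp only [oth1, List.contains_iff_mem, List.mem_cons, List.not_mem_nil, or_false] at h1 hex
      omega
    rcases h2 with rfl | rfl | rfl | rfl | rfl | rfl
    · exact swaps_of_vec 4 2 (by norm_num) ![3, 1] (by decide) (by decide) (by decide)
    · exact swaps_of_vec 9 3 (by norm_num) ![5, 2, 2] (by decide) (by decide) (by decide +kernel)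
    · exact swaps_of_vec 25 5 (by norm_num) ![9, 4, 4, 4, 4] (by decide) (by decide +kernel)
        (by decide +kernel)
    · exact swaps_of_vec 49 7 (by norm_num) ![13, 6, 6, 6, 6, 6, 6] (by decide +kernel)
        (by decide +kernel) (by decide +kernel)
    · exact swaps_of_vec 50 8 (by norm_num) ![13, 6, 6, 6, 6, 6, 6, 1] (by decide +kernel)
        (by decide +kernel) (by decide +kernel)
    · exact swaps_of_vec 121 11 (by norm_num) ![21, 10, 10, 10, 10, 10, 10, 10, 10, 10, 10]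
        (by decide +kernel) (by decide +kernel) (by decide +kernel)
  · exact swaps_of_chk n _ (by omega) h1

theorem small2 (n : ℕ) (h4 : 4 ≤ n) (h : n ≤ 159) (hex : n ≠ 91) :
    ¬ ∃ Y : Set (Perm (Fin n)), ∀ σ : Perm (Fin n),
      ∃! q : Perm (Fin n) × Perm (Fin n), (q.1 = 1 ∨ q.1.IsSwap) ∧ q.2 ∈ Y ∧ q.1 * q.2 = σ := by
  have h1 := List.all_eq_true.1 all2 n (List.mem_range.2 (by omega))
  rw [Bool.or_eq_true] at h1
  rcases h1 with h1 | h1
  · have h2 : n = 6 ∨ n = 137 := by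
      simp only [oth2, List.contains_iff_mem, List.mem_cons, List.not_mem_nil, or_false] at h1
      omega
    rcases h2 with rfl | rfl
    · exact idswaps_of_vec 6 2 (by norm_num) ![5, 1] (by decide) (by decide) (by decide +kernel)
    · exact idswaps_of_vec 137 12 (by norm_num) ![32, 10, 10, 10, 10, 10, 10, 10, 10, 10, 10, 5]
        (by decide +kernel) (by decide +kernel) (by decide +kernel)
  · exact idswaps_of_chk n _ (by omega) h1

end Pool.Agent.J4H60.TR
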