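import Pool.Agent.J4H60.TR.Main

/-!
# Tilings of the symmetric group by transpositions: divisibility by Young subgroups, statements
-/

set_option autoImplicit false

namespace Pool.Agent.J4H60.TR

open Finset Equiv Equiv.Perm

variable {n k : ℕ}

lemma exists_word (lam : Fin k → ℕ) (h : ∑ a, lam a = n) :
    ∃ w0 : Fin n → Fin k, ∀ a, (univ.filter fun i => w0 i = a).card = lam a := by
  classical
  subst h
  refine ⟨fun i => (finSigmaFinEquiv.symm i).1, fun a => ?_⟩
  have h1 : (univ.filter fun i : Fin (∑ a, lam a) => (finSigmaFinEquiv.symm i).1 = a).card =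
      (univ.filter fun x : (Σ a : Fin k, Fin (lam a)) => x.1 = a).card := by
    refine Finset.card_bij (fun i _ => finSigmaFinEquiv.symm i) ?_ ?_ ?_
    · intro i hi
      simpa using hi
    · intro i _ j _ hij
      exact finSigmaFinEquiv.symm.injective hij
    · intro x hx
      refine ⟨finSigmaFinEquiv x, ?_, by simp⟩
      simpa using hx
  rw [h1]
  have h2 : (univ.filter fun x : (Σ a : Fin k, Fin (lam a)) => x.1 = a) =
      (univ : Finset (Fin (lam a))).map ⟨fun b => (⟨a, b⟩ : Σ a : Fin k, Fin (lam a)),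
        fun b c hbc => by simpa using hbc⟩ := by
    ext ⟨b, c⟩
    simp only [mem_filter, mem_univ, true_and, mem_map, Function.Embedding.coeFn_mk]
    constructor
    · rintro rfl
      exact ⟨c, rfl⟩
    · rintro ⟨d, hd⟩
      exact (congrArg Sigma.fst hd).symm
  rw [h2, card_map, card_univ, Fintype.card_fin]

open scoped Classical in
lemma half (w0 : Fin n → Fin k) (i j : Fin n) (hij : i ≠ j) (hw : w0 i = w0 j)
    (w : Fin n → Fin k) :
    2 * (∑ σ : Perm (Fin n), if sign σ = -1 then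
      (if w0 ∘ ⇑(σ⁻¹) = w then (1 : ℝ) else 0) else 0) = cnt w0 univ w := by
  have h1 : (∑ σ : Perm (Fin n), if sign σ = -1 then
      (if w0 ∘ ⇑(σ⁻¹) = w then (1 : ℝ) else 0) else 0) =
      ∑ σ : Perm (Fin n), if sign σ = 1 then
      (if w0 ∘ ⇑(σ⁻¹) = w then (1 : ℝ) else 0) else 0 := by
    refine Fintype.sum_equiv (Equiv.mulRight (swap i j)) _ _ fun σ => ?_
    have h2 : w0 ∘ ⇑((σ * swap i j)⁻¹) = w0 ∘ ⇑(σ⁻¹) := by
      funext x
      rw [mul_inv_rev, swap_inv]
      simp only [Function.comp, coe_mul]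
      rcases eq_or_ne (σ⁻¹ x) i with h | h
      · rw [h, swap_apply_left, hw]
      · rcases eq_or_ne (σ⁻¹ x) j with h' | h'
        · rw [h', swap_apply_right, hw]
        · rw [swap_apply_of_ne_of_ne h h']
    have h3 : sign (σ * swap i j) = 1 ↔ sign σ = -1 := by
      rw [Equiv.Perm.sign_mul, sign_swap hij]
      rcases Int.units_eq_one_or (sign σ) with h | h <;> simp [h]
    simp only [coe_mulRight, h2, h3]
  have h4 : cnt w0 univ w = (∑ σ : Perm (Fin n), if sign σ = -1 then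
      (if w0 ∘ ⇑(σ⁻¹) = w then (1 : ℝ) else 0) else 0) +
      ∑ σ : Perm (Fin n), if sign σ = 1 then
      (if w0 ∘ ⇑(σ⁻¹) = w then (1 : ℝ) else 0) else 0 := by
    rw [← Finset.sum_add_distrib]
    unfold cnt
    rw [Finset.card_filter]
    push_cast
    refine Finset.sum_congr rfl fun σ _ => ?_
    rcases Int.units_eq_one_or (sign σ) with h | h
    · have h5 : ¬ ((1 : ℤˣ) = -1) := by decide
      simp [h, h5]
    · have h5 : ¬ ((-1 : ℤˣ) = 1) := by decide
      simp [h, h5]
  rw [h4, ← h1]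
  ring

/-- Tilings by the transpositions. -/
theorem swaps_dvd (hn : 2 ≤ n) (Y : Set (Perm (Fin n)))
    (hT : ∀ σ : Perm (Fin n), ∃! p : Perm (Fin n) × Perm (Fin n),
      p.1.IsSwap ∧ p.2 ∈ Y ∧ p.1 * p.2 = σ)
    (lam : Fin k → ℕ) (hsum : ∑ a, lam a = n)
    (hpos : 0 < ∑ a : Fin k, (lam a : ℤ) * (lam a - 1 - 2 * (a : ℤ))) :
    n * (n - 1) ∣ ∏ a, (lam a).factorial := by
  classical
  obtain ⟨w0, hw0⟩ := exists_word lam hsum
  -- two equal letters
  obtain ⟨a, -, ha⟩ := Finset.exists_lt_of_sum_lt (s := univ) (f := fun _ : Fin k => (0 : ℤ))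
    (g := fun a : Fin k => (lam a : ℤ) * (lam a - 1 - 2 * (a : ℤ))) (by simpa using hpos)
  have ha2 : 1 < lam a := by
    by_contra h
    have h1 : lam a = 0 ∨ lam a = 1 := by omega
    rcases h1 with h1 | h1
    · rw [h1] at ha
      simp at ha
    · rw [h1] at ha
      push_cast at ha
      have : (0 : ℤ) ≤ (a : ℕ) := Int.natCast_nonneg _
      linarith
  rw [← hw0 a, Finset.one_lt_card] at ha2
  obtain ⟨i, hi, j, hj, hij⟩ := ha2
  simp only [mem_filter, mem_univ, true_and] at hi hj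
  set A : Finset (Perm (Fin n)) := univ.filter fun y => y ∈ Y ∧ sign y = 1 with hA
  have hstep : ∀ w, (∑ i, ∑ j, if i ≠ j then cnt w0 A (w ∘ swap i j) else 0) + 0 * cnt w0 A w =
      1 * cnt w0 univ w := by
    intro w
    rw [step, ← half w0 i j hij (hi.trans hj.symm) w, zero_mul, add_zero, one_mul]
    congr 1
    rw [← tile_sum (fun t => t.IsSwap) Y hT]
    refine Finset.sum_congr rfl fun t ht => ?_
    simp only [mem_filter, mem_univ, true_and] at ht
    rw [hA, ← Finset.filter_filter, Finset.sum_filter (fun y => sign y = 1)]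
    refine Finset.sum_congr rfl fun y _ => ?_
    have h1 : sign (t * y) = -1 ↔ sign y = 1 := by
      rw [Equiv.Perm.sign_mul, ht.sign_eq]
      rcases Int.units_eq_one_or (sign y) with h | h <;> simp [h]
    simp only [h1]
  have hC : -(0 : ℝ) < ∑ a : Fin k, ((univ.filter fun i => w0 i = a).card : ℝ) *
      ((univ.filter fun i => w0 i = a).card - 1 - 2 * (a : ℝ)) := by
    rw [neg_zero]
    simp_rw [hw0]
    exact_mod_cast hpos
  have h := key w0 A 1 0 le_rfl hn hC hstep
  rw [cnt_univ, one_mul, add_zero] at h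
  simp_rw [hw0] at h
  have h5 : (n * (n - 1)) * (A.filter fun g : Perm (Fin n) => w0 ∘ ⇑(g⁻¹) = w0).card =
      ∏ a, (lam a).factorial := by
    have h6 : ((n - 1 : ℕ) : ℝ) = (n : ℝ) - 1 := by
      rw [Nat.cast_sub (by omega), Nat.cast_one]
    unfold cnt at h
    rw [← h6] at h
    exact_mod_cast h
  exact ⟨_, h5.symm⟩

/-- Tilings by the transpositions and the identity. -/
theorem idswaps_dvd (hn : 2 ≤ n) (Y : Set (Perm (Fin n)))
    (hT : ∀ σ : Perm (Fin n), ∃! p : Perm (Fin n) × Perm (Fin n),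
      (p.1 = 1 ∨ p.1.IsSwap) ∧ p.2 ∈ Y ∧ p.1 * p.2 = σ)
    (lam : Fin k → ℕ) (hsum : ∑ a, lam a = n)
    (hpos : 0 ≤ ∑ a : Fin k, (lam a : ℤ) * (lam a - 1 - 2 * (a : ℤ))) :
    n * (n - 1) + 2 ∣ 2 * ∏ a, (lam a).factorial := by
  classical
  obtain ⟨w0, hw0⟩ := exists_word lam hsum
  set A : Finset (Perm (Fin n)) := univ.filter fun y => y ∈ Y with hA
  have hstep : ∀ w, (∑ i, ∑ j, if i ≠ j then cnt w0 A (w ∘ swap i j) else 0) + 2 * cnt w0 A w =
      2 * cnt w0 univ w := by
    intro w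
    have h0 : cnt w0 univ w = ∑ σ : Perm (Fin n), if w0 ∘ ⇑(σ⁻¹) = w then (1 : ℝ) else 0 := by
      unfold cnt
      rw [Finset.card_filter]
      push_cast
      refine Finset.sum_congr rfl fun σ _ => ?_
      congr
    have h1 : cnt w0 A w = ∑ y ∈ A, if w0 ∘ ⇑((1 * y)⁻¹) = w then (1 : ℝ) else 0 := by
      unfold cnt
      rw [Finset.card_filter]
      push_cast
      refine Finset.sum_congr rfl fun σ _ => ?_
      rw [one_mul]
    rw [step, h0, ← tile_sum (fun t => t = 1 ∨ t.IsSwap) Y hT, ← mul_add, h1]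
    congr 1
    have h3 : (1 : Perm (Fin n)) ∉ (univ : Finset (Perm (Fin n))).filter (fun t => t.IsSwap) := by
      simp only [mem_filter, mem_univ, true_and]
      rintro ⟨x, y, hxy, h4⟩
      have h5 := congrArg (fun t : Perm (Fin n) => t x) h4
      simp only [Equiv.Perm.coe_one, id_eq, swap_apply_left] at h5
      exact hxy h5
    rw [add_comm, ← Finset.sum_insert (f := fun t => ∑ y ∈ A,
      if w0 ∘ ⇑((t * y)⁻¹) = w then (1 : ℝ) else 0) h3]
    refine Finset.sum_congr ?_ fun _ _ => rfl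
    ext t
    simp
  have hC : -(2 : ℝ) < ∑ a : Fin k, ((univ.filter fun i => w0 i = a).card : ℝ) *
      ((univ.filter fun i => w0 i = a).card - 1 - 2 * (a : ℝ)) := by
    simp_rw [hw0]
    have h6 : (0 : ℝ) ≤ ∑ a : Fin k, (lam a : ℝ) * ((lam a : ℝ) - 1 - 2 * (a : ℝ)) := by
      exact_mod_cast hpos
    linarith
  have h := key w0 A 2 2 (by norm_num) hn hC hstep
  rw [cnt_univ] at h
  simp_rw [hw0] at h
  have h5 : (n * (n - 1) + 2) * (A.filter fun g : Perm (Fin n) => w0 ∘ ⇑(g⁻¹) = w0).card =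
      2 * ∏ a, (lam a).factorial := by
    have h6 : ((n - 1 : ℕ) : ℝ) = (n : ℝ) - 1 := by
      rw [Nat.cast_sub (by omega), Nat.cast_one]
    unfold cnt at h
    rw [← h6] at h
    exact_mod_cast h
  exact ⟨_, h5.symm⟩

end Pool.Agent.J4H60.TR
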